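import Pool.Agent.Lib.MP_ac5134_an.KM.CovA

/-!
# Gram determinants and the index
-/

set_option autoImplicit false

namespace Pool.Agent.MPac5134.Lat

open Matrix Polynomial

/-- a linearly independent family in `Λ` of the same rank has Gram determinant `k^2 cov G Λ`, where `k ≥ 1` is its
index -/
theorem gram_det_index {r : ℕ} (G : Matrix (Fin r) (Fin r) ℝ) (Λ : Submodule ℤ (Fin r → ℤ))
    {ι : Type*} [Fintype ι] [DecidableEq ι] (v : ι → Fin r → ℤ) (hv : LinearIndependent ℤ v)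
    (hΛ : ∀ i, v i ∈ Λ) (hc : Fintype.card ι = Module.finrank ℤ Λ) :
    ∃ b : Module.Basis ι ℤ Λ, ∃ M : Matrix ι ι ℤ, (∀ i, v i = ∑ k, M k i • ((b k : Λ) : Fin r → ℤ)) ∧
      M.det ≠ 0 ∧ (gram G v).det = (M.det : ℝ) ^ 2 * cov G Λ := by
  classical
  have e : Fin (Module.finrank ℤ Λ) ≃ ι :=
    (Fintype.equivFinOfCardEq hc).symm
  obtain ⟨b, hb⟩ : ∃ b : Module.Basis ι ℤ Λ, b = (Module.finBasis ℤ Λ).reindex e := ⟨_, rfl⟩
  obtain ⟨M, hM⟩ : ∃ M : Matrix ι ι ℤ, M = b.toMatrix (fun i => (⟨v i, hΛ i⟩ : Λ)) := ⟨_, rfl⟩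
  have h1 : ∀ i, v i = ∑ k, M k i • ((b k : Λ) : Fin r → ℤ) := by
    intro i
    have h2 := b.sum_toMatrix_smul_self (fun i => (⟨v i, hΛ i⟩ : Λ)) i
    have h3 := congrArg (fun z : Λ => (z : Fin r → ℤ)) h2
    simp only [Submodule.coe_sum, Submodule.coe_smul] at h3
    rw [hM]
    exact h3.symm
  refine ⟨b, M, h1, ?_, ?_⟩
  · intro h0
    obtain ⟨y, hy0, hy⟩ := Matrix.exists_mulVec_eq_zero_iff.mpr h0
    apply hy0
    have h4 : ∑ i, y i • v i = 0 := by
      calc ∑ i, y i • v i = ∑ i, ∑ k, (y i * M k i) • ((b k : Λ) : Fin r → ℤ) := by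
            refine Finset.sum_congr rfl fun i _ => ?_
            rw [h1 i, Finset.smul_sum]
            exact Finset.sum_congr rfl fun k _ => by rw [smul_smul]
        _ = ∑ k, (M *ᵥ y) k • ((b k : Λ) : Fin r → ℤ) := by
            rw [Finset.sum_comm]
            refine Finset.sum_congr rfl fun k _ => ?_
            rw [← Finset.sum_smul]
            congr 1
            simp only [Matrix.mulVec, dotProduct]
            exact Finset.sum_congr rfl fun i _ => mul_comm _ _
        _ = 0 := by rw [hy]; simp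
    funext i
    exact Fintype.linearIndependent_iff.mp hv y h4 i
  · rw [gram_comb_det G v (fun k => ((b k : Λ) : Fin r → ℤ)) M h1, cov_eq G Λ b]

end Pool.Agent.MPac5134.Lat
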