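import Pool.Agent.Lib.MP_ac5134_an.KM.Defs

/-!
# integer points of rational subspaces
-/

set_option autoImplicit false

namespace Pool.Agent.MPac5134.Lat

open Matrix Polynomial

theorem mem_lat {r : ℕ} {U : Submodule ℚ (Fin r → ℚ)} {v : Fin r → ℤ} :
    v ∈ lat U ↔ (fun k => (v k : ℚ)) ∈ U := Iff.rfl

private theorem lat_castL_inj (r : ℕ) : LinearMap.ker (castL r) = ⊥ := by
  rw [LinearMap.ker_eq_bot]
  intro v w h
  funext k
  have := congrFun h k
  simpa [castL] using this

/-- an integer family is linearly independent over `ℤ` iff over `ℚ` -/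
theorem linInd_cast {r : ℕ} {ι : Type*} (v : ι → Fin r → ℤ) :
    LinearIndependent ℤ v ↔ LinearIndependent ℚ (fun i k => (v i k : ℚ)) := by
  rw [← LinearMap.linearIndependent_iff (castL r) (lat_castL_inj r),
    LinearIndependent.iff_fractionRing ℤ ℚ]
  rfl

private theorem lat_clear {r : ℕ} (u : Fin r → ℚ) :
    ∃ (b : ℤ) (v : Fin r → ℤ), b ≠ 0 ∧ castL r v = (b : ℚ) • u := by
  obtain ⟨b, hb⟩ := IsLocalization.exist_integer_multiples_of_finite (nonZeroDivisors ℤ) u
  choose v hv using hb
  refine ⟨(b : ℤ), v, nonZeroDivisors.ne_zero b.2, ?_⟩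
  funext k
  have := hv k
  simpa [castL, Algebra.smul_def] using this

theorem finrank_lat {r : ℕ} (U : Submodule ℚ (Fin r → ℚ)) : Module.finrank ℤ (lat U) = Module.finrank ℚ U := by
  set b := Module.finBasis ℤ (lat U) with hb
  set w : Fin (Module.finrank ℤ (lat U)) → U := fun i => ⟨castL r (b i : Fin r → ℤ), (b i).2⟩ with hw
  have hli : LinearIndependent ℚ w := by
    have h1 : LinearIndependent ℤ (fun i => ((b i : lat U) : Fin r → ℤ)) :=
      b.linearIndependent.map' (lat U).subtype (Submodule.ker_subtype _)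
    rw [linInd_cast] at h1
    exact LinearIndependent.of_comp U.subtype h1
  have hsp : ⊤ ≤ Submodule.span ℚ (Set.range w) := by
    rintro ⟨u, hu⟩ -
    obtain ⟨c, v, hc, hv⟩ := lat_clear u
    have hvU : v ∈ lat U := by
      change castL r v ∈ U
      rw [hv]
      exact U.smul_mem _ hu
    have h2 : (⟨castL r v, hvU⟩ : U) ∈ Submodule.span ℚ (Set.range w) := by
      have h3 : (⟨castL r v, hvU⟩ : U) = ∑ i, ((b.repr ⟨v, hvU⟩ i : ℤ) : ℚ) • w i := by
        apply Subtype.ext
        have h4 := congrArg (fun x : lat U => castL r (x : Fin r → ℤ)) (b.sum_repr ⟨v, hvU⟩)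
        simp only [AddSubmonoidClass.coe_finsetSum, Submodule.coe_smul, map_sum, map_smul] at h4
        simp only [AddSubmonoidClass.coe_finsetSum, Submodule.coe_smul, hw]
        rw [← h4]
        refine Finset.sum_congr rfl fun i _ => ?_
        funext k
        simp
      rw [h3]
      exact Submodule.sum_mem _ fun i _ => Submodule.smul_mem _ _ (Submodule.subset_span ⟨i, rfl⟩)
    have h5 : (⟨u, hu⟩ : U) = ((c : ℚ)⁻¹) • (⟨castL r v, hvU⟩ : U) := by
      apply Subtype.ext
      have hc' : (c : ℚ) ≠ 0 := by exact_mod_cast hc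
      simp only [Submodule.coe_smul, hv, smul_smul, inv_mul_cancel₀ hc', one_smul]
    rw [h5]
    exact Submodule.smul_mem _ _ h2
  have := Module.finrank_eq_card_basis (Module.Basis.mk hli hsp)
  rw [this, Fintype.card_fin]

end Pool.Agent.MPac5134.Lat
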