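import Pool.Agent.Lib.MP_ac5134_an.KM.Defs

/-!
# determinants of positive definite matrices
-/

set_option autoImplicit false

namespace Pool.Agent.MPac5134.Lat

open Matrix Polynomial

private theorem psd_one_le_det {ι : Type*} [Fintype ι] [DecidableEq ι] {T : Matrix ι ι ℝ}
    (hT : T.PosSemidef) : 1 ≤ (1 + T).det := by
  have hh : (1 + T).IsHermitian := (isHermitian_one).add hT.isHermitian
  rw [hh.det_eq_prod_eigenvalues]
  have h1 : ∀ i, (1 : ℝ) ≤ hh.eigenvalues i := by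
    intro i
    rw [hh.eigenvalues_eq i, add_mulVec, dotProduct_add, one_mulVec, map_add]
    have h2 : 0 ≤ RCLike.re (star (⇑(hh.eigenvectorBasis i)) ⬝ᵥ
        (T *ᵥ ⇑(hh.eigenvectorBasis i))) := hT.re_dotProduct_nonneg _
    have h3 : RCLike.re (star (⇑(hh.eigenvectorBasis i)) ⬝ᵥ ⇑(hh.eigenvectorBasis i)) = (1 : ℝ) := by
      rw [dotProduct_comm, ← EuclideanSpace.inner_eq_star_dotProduct]
      simp
    rw [h3]
    linarith
  exact Finset.one_le_prod (fun i _ => h1 i)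

open scoped MatrixOrder in
private theorem psd_factor {ι : Type*} [Fintype ι] [DecidableEq ι] {A : Matrix ι ι ℝ}
    (hA : A.PosDef) : ∃ C : Matrix ι ι ℝ, A = Cᴴ * C ∧ C.det ≠ 0 := by
  obtain ⟨C, hC⟩ := CStarAlgebra.nonneg_iff_eq_star_mul_self.mp hA.posSemidef.nonneg
  refine ⟨C, hC, ?_⟩
  intro h0
  have h1 := hA.det_pos
  rw [hC, star_eq_conjTranspose, det_mul, h0, mul_zero] at h1
  exact lt_irrefl _ h1

/-- the determinant is monotone -/
theorem det_le_det {ι : Type*} [Fintype ι] [DecidableEq ι] {A B : Matrix ι ι ℝ} (hA : A.PosDef)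
    (hAB : (B - A).PosSemidef) : A.det ≤ B.det := by
  obtain ⟨C, hC, hC0⟩ := psd_factor hA
  have hu : IsUnit C.det := isUnit_iff_ne_zero.mpr hC0
  have hT : ((C⁻¹)ᴴ * (B - A) * C⁻¹).PosSemidef := hAB.conjTranspose_mul_mul_same C⁻¹
  have hB : B = Cᴴ * (1 + (C⁻¹)ᴴ * (B - A) * C⁻¹) * C := by
    have e1 : Cᴴ * (C⁻¹)ᴴ = 1 := by
      rw [← conjTranspose_mul, nonsing_inv_mul _ hu, conjTranspose_one]
    have e2 : Cᴴ * ((C⁻¹)ᴴ * (B - A) * C⁻¹) * C = B - A := by
      calc Cᴴ * ((C⁻¹)ᴴ * (B - A) * C⁻¹) * C = (Cᴴ * (C⁻¹)ᴴ) * (B - A) * (C⁻¹ * C) := by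
            simp only [Matrix.mul_assoc]
        _ = B - A := by rw [e1, nonsing_inv_mul _ hu, Matrix.one_mul, Matrix.mul_one]
    rw [Matrix.mul_add, Matrix.add_mul, e2, Matrix.mul_one, ← hC]
    abel
  have h1 := psd_one_le_det hT
  have h2 : B.det = A.det * (1 + (C⁻¹)ᴴ * (B - A) * C⁻¹).det := by
    have e3 : A.det = Cᴴ.det * C.det := by
      conv_lhs => rw [hC]
      rw [det_mul]
    conv_lhs => rw [hB]
    rw [det_mul, det_mul, e3]
    ring
  rw [h2]
  have h3 := hA.det_pos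
  nlinarith

/-! ### Schur complements -/

private theorem psd_blocks {α β : Type*} {P : Matrix (α ⊕ β) (α ⊕ β) ℝ} (hP : P.IsHermitian) :
    P = fromBlocks (P.submatrix Sum.inl Sum.inl) (P.submatrix Sum.inl Sum.inr)
      (P.submatrix Sum.inl Sum.inr)ᴴ (P.submatrix Sum.inr Sum.inr) := by
  ext i j
  rcases i with i | i <;> rcases j with j | j
  · rfl
  · rfl
  · simp only [fromBlocks_apply₂₁, conjTranspose_apply, submatrix_apply]
    exact (hP.apply _ _).symm
  · rfl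

/-- the Schur complement of the first block -/
private noncomputable def psd_schur {α β : Type*} [Fintype α] [DecidableEq α] (P : Matrix (α ⊕ β) (α ⊕ β) ℝ) :
    Matrix β β ℝ :=
  P.submatrix Sum.inr Sum.inr -
    (P.submatrix Sum.inl Sum.inr)ᴴ * (P.submatrix Sum.inl Sum.inl)⁻¹ * P.submatrix Sum.inl Sum.inr

private theorem psd_schur_det {α β : Type*} [Fintype α] [DecidableEq α] [Fintype β] [DecidableEq β]
    {P : Matrix (α ⊕ β) (α ⊕ β) ℝ} (hP : P.PosDef) :
    P.det = (P.submatrix Sum.inl Sum.inl).det * (psd_schur P).det := by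
  have hA : (P.submatrix Sum.inl Sum.inl).PosDef := hP.submatrix Sum.inl_injective
  have hi : Invertible (P.submatrix (Sum.inl : α → α ⊕ β) Sum.inl) :=
    invertibleOfIsUnitDet _ (isUnit_iff_ne_zero.mpr hA.det_pos.ne')
  conv_lhs => rw [psd_blocks hP.isHermitian]
  rw [det_fromBlocks₁₁, invOf_eq_nonsing_inv]
  rfl

private theorem psd_schur_posDef {α β : Type*} [Fintype α] [DecidableEq α] [Fintype β]
    [DecidableEq β] {P : Matrix (α ⊕ β) (α ⊕ β) ℝ} (hP : P.PosDef) : (psd_schur P).PosDef := by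
  have hA : (P.submatrix Sum.inl Sum.inl).PosDef := hP.submatrix Sum.inl_injective
  have hi : Invertible (P.submatrix (Sum.inl : α → α ⊕ β) Sum.inl) :=
    invertibleOfIsUnitDet _ (isUnit_iff_ne_zero.mpr hA.det_pos.ne')
  have h1 : (psd_schur P).PosSemidef := by
    have h2 := hP.posSemidef
    rw [psd_blocks hP.isHermitian] at h2
    exact (PosDef.fromBlocks₁₁ _ _ hA).mp h2
  rw [h1.posDef_iff_det_ne_zero]
  intro h0
  have h3 := hP.det_pos
  rw [psd_schur_det hP, h0, mul_zero] at h3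
  exact lt_irrefl _ h3

/-- Fischer's inequality -/
theorem fischer {κ μ : Type*} [Fintype κ] [DecidableEq κ] [Fintype μ] [DecidableEq μ]
    {P : Matrix (κ ⊕ μ) (κ ⊕ μ) ℝ} (hP : P.PosDef) :
    P.det ≤ (P.submatrix Sum.inl Sum.inl).det * (P.submatrix Sum.inr Sum.inr).det := by
  have hA : (P.submatrix Sum.inl Sum.inl).PosDef := hP.submatrix Sum.inl_injective
  rw [psd_schur_det hP]
  refine mul_le_mul_of_nonneg_left ?_ hA.det_pos.le
  refine det_le_det (psd_schur_posDef hP) ?_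
  rw [psd_schur, sub_sub_cancel]
  exact hA.inv.posSemidef.conjTranspose_mul_mul_same _

/-- Koteljanskii's inequality for a block decomposition `ι ⊕ (κ ⊕ μ)` -/
theorem koteljanskii {ι κ μ : Type*} [Fintype ι] [DecidableEq ι] [Fintype κ] [DecidableEq κ] [Fintype μ]
    [DecidableEq μ] {P : Matrix (ι ⊕ (κ ⊕ μ)) (ι ⊕ (κ ⊕ μ)) ℝ} (hP : P.PosDef) :
    (P.submatrix Sum.inl Sum.inl).det * P.det ≤
      (P.submatrix (Sum.map id Sum.inl) (Sum.map id Sum.inl)).det *
        (P.submatrix (Sum.map id Sum.inr) (Sum.map id Sum.inr)).det := by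
  have hA : (P.submatrix Sum.inl Sum.inl).PosDef := hP.submatrix Sum.inl_injective
  have hP1 : (P.submatrix (Sum.map id Sum.inl : ι ⊕ κ → ι ⊕ (κ ⊕ μ)) (Sum.map id Sum.inl)).PosDef :=
    hP.submatrix (Sum.map_injective.mpr ⟨Function.injective_id, Sum.inl_injective⟩)
  have hP2 : (P.submatrix (Sum.map id Sum.inr : ι ⊕ μ → ι ⊕ (κ ⊕ μ)) (Sum.map id Sum.inr)).PosDef :=
    hP.submatrix (Sum.map_injective.mpr ⟨Function.injective_id, Sum.inr_injective⟩)
  rw [psd_schur_det hP, psd_schur_det hP1, psd_schur_det hP2]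
  have e1 : psd_schur (P.submatrix (Sum.map id Sum.inl : ι ⊕ κ → ι ⊕ (κ ⊕ μ)) (Sum.map id Sum.inl)) =
      (psd_schur P).submatrix Sum.inl Sum.inl := by
    ext i j
    rfl
  have e2 : psd_schur (P.submatrix (Sum.map id Sum.inr : ι ⊕ μ → ι ⊕ (κ ⊕ μ)) (Sum.map id Sum.inr)) =
      (psd_schur P).submatrix Sum.inr Sum.inr := by
    ext i j
    rfl
  rw [e1, e2]
  have e3 : (P.submatrix (Sum.map id Sum.inl : ι ⊕ κ → ι ⊕ (κ ⊕ μ)) (Sum.map id Sum.inl)).submatrix
      (Sum.inl : ι → ι ⊕ κ) Sum.inl = P.submatrix Sum.inl Sum.inl := rfl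
  have e4 : (P.submatrix (Sum.map id Sum.inr : ι ⊕ μ → ι ⊕ (κ ⊕ μ)) (Sum.map id Sum.inr)).submatrix
      (Sum.inl : ι → ι ⊕ μ) Sum.inl = P.submatrix Sum.inl Sum.inl := rfl
  rw [e3, e4]
  have h1 := fischer (psd_schur_posDef hP)
  have h2 := hA.det_pos
  calc (P.submatrix Sum.inl Sum.inl).det * ((P.submatrix Sum.inl Sum.inl).det * (psd_schur P).det)
      = ((P.submatrix (Sum.inl : ι → ι ⊕ (κ ⊕ μ)) Sum.inl).det ^ 2) * (psd_schur P).det := by ring
    _ ≤ ((P.submatrix (Sum.inl : ι → ι ⊕ (κ ⊕ μ)) Sum.inl).det ^ 2) *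
        (((psd_schur P).submatrix Sum.inl Sum.inl).det *
          ((psd_schur P).submatrix Sum.inr Sum.inr).det) :=
        mul_le_mul_of_nonneg_left h1 (sq_nonneg _)
    _ = _ := by ring

private theorem psd_hadamard_fin (n : ℕ) (P : Matrix (Fin n) (Fin n) ℝ) (hP : P.PosDef) :
    P.det ≤ ∏ i, P i i := by
  induction n with
  | zero => simp
  | succ n ih =>
    have hQ : (P.submatrix (finSumFinEquiv : Fin n ⊕ Fin 1 ≃ Fin (n + 1))
        (finSumFinEquiv : Fin n ⊕ Fin 1 ≃ Fin (n + 1))).PosDef := hP.submatrix (Equiv.injective _)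
    have h1 := fischer hQ
    rw [det_submatrix_equiv_self] at h1
    refine h1.trans ?_
    have h2 := ih _ (hQ.submatrix (e := (Sum.inl : Fin n → Fin n ⊕ Fin 1)) Sum.inl_injective)
    have h3 : 0 < P (Fin.last n) (Fin.last n) := hP.diag_pos
    rw [Fin.prod_univ_castSucc, det_fin_one]
    exact mul_le_mul_of_nonneg_right h2 h3.le

/-- Hadamard's inequality -/
theorem hadamard {ι : Type*} [Fintype ι] [DecidableEq ι] {P : Matrix ι ι ℝ} (hP : P.PosDef) :
    P.det ≤ ∏ i, P i i := by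
  have e := (Fintype.equivFin ι).symm
  have h1 := psd_hadamard_fin _ (P.submatrix e e) (hP.submatrix e.injective)
  rw [det_submatrix_equiv_self] at h1
  refine h1.trans (le_of_eq ?_)
  exact Equiv.prod_comp e (fun i => P i i)

end Pool.Agent.MPac5134.Lat
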