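import Pool.Agent.Lib.MP_ac5134_an.KM.CountA
import Pool.Agent.Lib.MP_ac5134_an.KM.CovIdx
import Pool.Agent.Lib.MP_ac5134_an.KM.Lat
import Pool.Agent.Lib.MP_ac5134_an.KM.Psd

/-!
# counting lattice points
-/

set_option autoImplicit false

namespace Pool.Agent.MPac5134.Lat

open Matrix Polynomial

/-- a non-zero Gram determinant forces linear independence -/
private theorem countB_linInd {r : ℕ} (G : Matrix (Fin r) (Fin r) ℝ) {ι : Type*} [Fintype ι]
    [DecidableEq ι] (v : ι → Fin r → ℤ) (h : (gram G v).det ≠ 0) : LinearIndependent ℤ v := by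
  rw [Fintype.linearIndependent_iff]
  intro g hg
  have h1 : gram G v *ᵥ (fun i => (g i : ℝ)) = 0 := by
    funext i
    have h2 : (∑ j, (g j : ℝ) • rv (v j)) = 0 := by
      funext k
      have := congrFun hg k
      simp only [Finset.sum_apply, Pi.smul_apply, smul_eq_mul, Pi.zero_apply] at this
      simp only [Finset.sum_apply, Pi.smul_apply, smul_eq_mul, Pi.zero_apply, rv]
      exact_mod_cast this
    calc (gram G v *ᵥ (fun i => (g i : ℝ))) i
        = ∑ j, (rv (v i) ⬝ᵥ (G *ᵥ rv (v j))) * (g j : ℝ) := by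
          simp [Matrix.mulVec, dotProduct, gram]
      _ = rv (v i) ⬝ᵥ (G *ᵥ (∑ j, (g j : ℝ) • rv (v j))) := by
          rw [Matrix.mulVec_sum, dotProduct_sum]
          refine Finset.sum_congr rfl fun j _ => ?_
          rw [Matrix.mulVec_smul, dotProduct_smul, smul_eq_mul, mul_comm]
      _ = 0 := by rw [h2]; simp
  have h3 := Matrix.eq_zero_of_mulVec_eq_zero h h1
  intro i
  have := congrFun h3 i
  simpa using this

/-- replacing one vector by a combination multiplies the Gram determinant by a square -/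
private theorem countB_update {r : ℕ} (G : Matrix (Fin r) (Fin r) ℝ) {ι : Type*} [Fintype ι]
    [DecidableEq ι] (v : ι → Fin r → ℤ) (x : Fin r → ℤ) (c : ι → ℝ) (i : ι)
    (hx : rv x = ∑ k, c k • rv (v k)) :
    (gram G (Function.update v i x)).det = (c i) ^ 2 * (gram G v).det := by
  classical
  set N : Matrix ι ι ℝ := (1 : Matrix ι ι ℝ).updateCol i c with hN
  have hcol : ∀ j, rv (Function.update v i x j) = ∑ k, N k j • rv (v k) := by
    intro j
    by_cases hj : j = i
    · subst hj
      rw [Function.update_self, hx]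
      refine Finset.sum_congr rfl fun k _ => ?_
      rw [hN, Matrix.updateCol_self]
    · rw [Function.update_of_ne hj]
      rw [Finset.sum_eq_single j]
      · rw [hN, Matrix.updateCol_ne hj, Matrix.one_apply_eq, one_smul]
      · intro k _ hk
        rw [hN, Matrix.updateCol_ne hj, Matrix.one_apply_ne hk, zero_smul]
      · intro h; exact absurd (Finset.mem_univ _) h
  have hgram : gram G (Function.update v i x) = Nᵀ * gram G v * N := by
    ext a b
    have h1 : gram G (Function.update v i x) a b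
        = (∑ k, N k a • rv (v k)) ⬝ᵥ (G *ᵥ (∑ l, N l b • rv (v l))) := by
      simp only [gram, Matrix.of_apply, hcol]
    rw [h1, Matrix.mul_apply, Matrix.mulVec_sum, dotProduct_sum]
    refine Finset.sum_congr rfl fun l _ => ?_
    rw [Matrix.mulVec_smul, dotProduct_smul, smul_eq_mul, mul_comm]
    congr 1
    rw [Matrix.mul_apply, sum_dotProduct]
    refine Finset.sum_congr rfl fun k _ => ?_
    rw [smul_dotProduct, smul_eq_mul, Matrix.transpose_apply]
    rfl
  have hdetN : N.det = c i := by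
    rw [hN, ← Matrix.cramer_apply, Matrix.cramer_one]; rfl
  rw [hgram, Matrix.det_mul, Matrix.det_mul, Matrix.det_transpose, hdetN]
  ring

private theorem countB_final {r j : ℕ} {n m C B : ℝ} (hjr : j ≤ r) (hB : 1 ≤ B) (hn : 0 ≤ n)
    (hC : 0 < C) (h1 : n ≤ 3 ^ j * |m|) (h2 : m ^ 2 * C ≤ B ^ j) :
    n ^ 2 * C ≤ 9 ^ r * B ^ r := by
  have h9 : ((3 : ℝ) ^ j) ^ 2 = 9 ^ j := by
    rw [← pow_mul, mul_comm, pow_mul]; norm_num
  have h3 : n ^ 2 ≤ 9 ^ j * m ^ 2 := by
    have h4 : n ^ 2 ≤ (3 ^ j * |m|) ^ 2 := pow_le_pow_left₀ hn h1 2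
    rwa [mul_pow, sq_abs, h9] at h4
  have h5 : n ^ 2 * C ≤ 9 ^ j * m ^ 2 * C := mul_le_mul_of_nonneg_right h3 hC.le
  have h6 : (9 : ℝ) ^ j * m ^ 2 * C ≤ 9 ^ j * B ^ j := by
    rw [mul_assoc]
    exact mul_le_mul_of_nonneg_left h2 (by positivity)
  have h7 : (9 : ℝ) ^ j ≤ 9 ^ r := pow_le_pow_right₀ (by norm_num) hjr
  have h8 : B ^ j ≤ B ^ r := pow_le_pow_right₀ hB hjr
  exact h5.trans (h6.trans (mul_le_mul h7 h8 (by positivity) (by positivity)))

theorem card_le {r : ℕ} {G : Matrix (Fin r) (Fin r) ℝ} (hG : G.PosDef) {B : ℝ} (hB : 1 ≤ B)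
    (T : Finset (Fin r → ℤ)) (hT : ∀ n ∈ T, qf G n ≤ B) :
    ∃ U : Submodule ℚ (Fin r → ℚ), (T.card : ℝ) ^ 2 * cov G (lat U) ≤ 9 ^ r * B ^ r := by
  classical
  set E : Set (Fin r → ℚ) := (fun n : Fin r → ℤ => fun k => (n k : ℚ)) '' (T : Set (Fin r → ℤ)) with hE
  set U : Submodule ℚ (Fin r → ℚ) := Submodule.span ℚ E with hU
  refine ⟨U, ?_⟩
  set j := Module.finrank ℚ U with hj
  have hjr : j ≤ r := by
    have := Submodule.finrank_le U
    simpa using this
  -- the finite set of independent families from T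
  set S : Finset (Fin j → Fin r → ℤ) :=
    (Fintype.piFinset fun _ : Fin j => T).filter fun v => LinearIndependent ℤ v with hS
  have hSne : S.Nonempty := by
    obtain ⟨f, hf1, -, hf3⟩ := Submodule.exists_fun_fin_finrank_span_eq ℚ E
    choose w hw using hf1
    refine ⟨w, ?_⟩
    rw [hS, Finset.mem_filter, Fintype.mem_piFinset]
    refine ⟨fun i => (hw i).1, ?_⟩
    rw [linInd_cast]
    have : (fun i k => (w i k : ℚ)) = f := by
      funext i; exact (hw i).2
    rw [this]; exact hf3
  obtain ⟨v, hvS, hmax⟩ := Finset.exists_max_image S (fun v => (gram G v).det) hSne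
  rw [hS, Finset.mem_filter, Fintype.mem_piFinset] at hvS
  obtain ⟨hvT, hvind⟩ := hvS
  have hTU : ∀ x ∈ T, (fun k => (x k : ℚ)) ∈ U := fun x hx =>
    Submodule.subset_span ⟨x, hx, rfl⟩
  have hvQ := (linInd_cast v).1 hvind
  have hgpos : 0 < (gram G v).det := (gram_posDef hG hvind).det_pos
  have hspan : Submodule.span ℚ (Set.range fun i k => (v i k : ℚ)) = U := by
    apply Submodule.eq_of_le_of_finrank_eq
    · rw [Submodule.span_le]
      rintro _ ⟨i, rfl⟩
      exact hTU _ (hvT i)
    · rw [finrank_span_eq_card hvQ]; simp [hj]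
  -- coordinates
  have hcoord : ∀ x ∈ T, ∃ c : Fin j → ℚ, (fun k => (x k : ℚ)) = ∑ i, c i • (fun k => (v i k : ℚ)) := by
    intro x hx
    have h1 := hTU x hx
    rw [← hspan, Submodule.mem_span_range_iff_exists_fun] at h1
    obtain ⟨c, hc⟩ := h1
    exact ⟨c, hc.symm⟩
  have hle1 : ∀ x ∈ T, ∀ c : Fin j → ℚ,
      (fun k => (x k : ℚ)) = ∑ i, c i • (fun k => (v i k : ℚ)) → ∀ i, |(c i : ℝ)| ≤ 1 := by
    intro x hx c hc i
    by_contra hcon
    rw [not_le] at hcon
    have hxr : rv x = ∑ k, (c k : ℝ) • rv (v k) := by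
      funext l
      have := congrFun hc l
      simp only [Finset.sum_apply, Pi.smul_apply, smul_eq_mul] at this
      simp only [Finset.sum_apply, Pi.smul_apply, smul_eq_mul, rv]
      exact_mod_cast this
    have h1 := countB_update G v x (fun k => (c k : ℝ)) i hxr
    have hc2 : 1 < (c i : ℝ) ^ 2 := by
      rw [← sq_abs]; nlinarith
    have h2 : (gram G v).det < (gram G (Function.update v i x)).det := by
      rw [h1]; nlinarith
    have h3 : Function.update v i x ∈ S := by
      rw [hS, Finset.mem_filter, Fintype.mem_piFinset]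
      refine ⟨fun a => ?_, countB_linInd G _ (by linarith : (gram G (Function.update v i x)).det > 0).ne'⟩
      by_cases ha : a = i
      · subst ha; rw [Function.update_self]; exact hx
      · rw [Function.update_of_ne ha]; exact hvT a
    exact absurd (hmax _ h3) (not_le.2 h2)
  -- index
  obtain ⟨b, M, hM, hMdet, hgram⟩ := gram_det_index G (lat U) v hvind
    (fun i => mem_lat.2 (hTU _ (hvT i))) (by rw [finrank_lat]; simp [hj])
  have hbZ : LinearIndependent ℤ (fun i => ((b i : lat U) : Fin r → ℤ)) := by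
    have := b.linearIndependent.map' (lat U).subtype (Submodule.ker_subtype _)
    exact this
  have hbQ := (linInd_cast _).1 hbZ
  -- coordinates of T
  set φ : T → (Fin j → ℤ) := fun x => b.repr ⟨x.1, mem_lat.2 (hTU _ x.2)⟩ with hφ
  have hφinj : Function.Injective φ := by
    intro x y hxy
    have h1 : b.repr ⟨x.1, mem_lat.2 (hTU _ x.2)⟩ = b.repr ⟨y.1, mem_lat.2 (hTU _ y.2)⟩ :=
      DFunLike.coe_injective hxy
    have h2 := b.repr.injective h1
    exact Subtype.ext (congrArg (fun z : lat U => (z : Fin r → ℤ)) h2)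
  set T' : Finset (Fin j → ℤ) := Finset.univ.image φ with hT'
  have hcard : T'.card = T.card := by
    rw [hT', Finset.card_image_of_injective _ hφinj, Finset.card_univ, Fintype.card_coe]
  have hpar := card_parallelepiped M hMdet T' (by
    intro y hy
    rw [hT', Finset.mem_image] at hy
    obtain ⟨x, -, rfl⟩ := hy
    obtain ⟨c, hc⟩ := hcoord x.1 x.2
    refine ⟨fun k => (c k : ℝ), hle1 x.1 x.2 c hc, ?_⟩
    have hxb : x.1 = ∑ i, φ x i • ((b i : lat U) : Fin r → ℤ) := by
      have h1 := b.sum_repr ⟨x.1, mem_lat.2 (hTU _ x.2)⟩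
      have h2 := congrArg (fun z : lat U => (z : Fin r → ℤ)) h1
      simp only [Submodule.coe_sum, Submodule.coe_smul] at h2
      rw [← h2]
    have hzero : ∑ i, ((φ x i : ℚ) - ∑ k, (M i k : ℚ) * c k) •
        (fun l => (((b i : lat U) : Fin r → ℤ) l : ℚ)) = 0 := by
      funext l
      simp only [Finset.sum_apply, Pi.smul_apply, smul_eq_mul, Pi.zero_apply, sub_mul,
        Finset.sum_sub_distrib]
      have h1 : ((x.1 l : ℤ) : ℚ) = ∑ i, (φ x i : ℚ) * (((b i : lat U) : Fin r → ℤ) l : ℚ) := by
        have := congrFun hxb l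
        simp only [Finset.sum_apply, Pi.smul_apply, smul_eq_mul] at this
        rw [this]; push_cast; rfl
      have h2 : ((x.1 l : ℤ) : ℚ) = ∑ k, c k * (v k l : ℚ) := by
        have := congrFun hc l
        simpa only [Finset.sum_apply, Pi.smul_apply, smul_eq_mul] using this
      have h3 : ∀ k, (v k l : ℚ) = ∑ i, (M i k : ℚ) * (((b i : lat U) : Fin r → ℤ) l : ℚ) := by
        intro k
        have := congrFun (hM k) l
        simp only [Finset.sum_apply, Pi.smul_apply, smul_eq_mul] at this
        rw [this]; push_cast; rfl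
      rw [← h1, h2, sub_eq_zero]
      simp only [h3, Finset.mul_sum, Finset.sum_mul]
      rw [Finset.sum_comm]
      refine Finset.sum_congr rfl fun i _ => Finset.sum_congr rfl fun k _ => by ring
    intro i
    have h4 := (Fintype.linearIndependent_iff.1 hbQ) _ hzero i
    have h5 : (φ x i : ℚ) = ∑ k, (M i k : ℚ) * c k := by linarith
    have h6 : (((φ x i : ℤ) : ℚ) : ℝ) = ((∑ k, (M i k : ℚ) * c k : ℚ) : ℝ) := by rw [h5]
    push_cast at h6
    exact h6)
  rw [hcard, Fintype.card_fin] at hpar
  have hhad := hadamard (gram_posDef hG hvind)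
  have hprod : ∏ i, gram G v i i ≤ B ^ j := by
    calc ∏ i, gram G v i i ≤ ∏ _i : Fin j, B := by
          apply Finset.prod_le_prod
          · intro i _
            exact ((gram_posDef hG hvind).diag_pos).le
          · intro i _
            exact hT _ (hvT i)
      _ = B ^ j := by rw [Finset.prod_const, Finset.card_univ, Fintype.card_fin]
  exact countB_final hjr hB (Nat.cast_nonneg _) (cov_pos hG (lat U)) hpar
    (hgram ▸ hhad.trans hprod)

end Pool.Agent.MPac5134.Lat
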