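import Pool.Agent.Lib.MP_ac5134_an.KM.CovA

/-!
# the Gram determinant is a polynomial of degree at most 2d in s
-/

set_option autoImplicit false

namespace Pool.Agent.MPac5134.Lat

open Matrix Polynomial

theorem formAt_posDef {r d : ℕ} {A : Matrix (Fin r) (Fin r) ℝ} (hA : A.PosDef) (X0 X1 : Matrix (Fin d) (Fin r) ℝ)
    (s : ℝ) : (formAt A X0 X1 s).PosDef := by
  unfold formAt
  refine hA.add_posSemidef ?_
  rw [← conjTranspose_eq_transpose_of_trivial]
  exact posSemidef_conjTranspose_mul_self _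

private theorem poly_gram_eq {r : ℕ} {ι : Type*} (G : Matrix (Fin r) (Fin r) ℝ) (v : ι → Fin r → ℤ) :
    gram G v = (Matrix.of fun k i => rv (v i) k)ᵀ * G * (Matrix.of fun k i => rv (v i) k) := by
  ext i j
  rw [Matrix.mul_assoc, Matrix.mul_apply]
  unfold gram
  rw [Matrix.of_apply, dotProduct]
  refine Finset.sum_congr rfl fun k _ => ?_
  rw [Matrix.transpose_apply, Matrix.of_apply, Matrix.mul_apply, Matrix.mulVec, dotProduct]
  rfl

/-- Sylvester's identity for the Gram determinant: with `K = (gram A v)⁻¹` and `Z = (X0 - s X1) V`,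
`det (gram (formAt s) v) = det (gram A v) * det (1 + Z K Zᵀ)` -/
theorem gram_formAt_det {r d : ℕ} {A : Matrix (Fin r) (Fin r) ℝ} (hA : A.PosDef)
    (X0 X1 : Matrix (Fin d) (Fin r) ℝ) {ι : Type*} [Fintype ι] [DecidableEq ι] {v : ι → Fin r → ℤ}
    (hv : LinearIndependent ℤ v) (s : ℝ) :
    (gram (formAt A X0 X1 s) v).det = (gram A v).det *
      (1 + (X0 - s • X1) * (Matrix.of fun k i => rv (v i) k) * (gram A v)⁻¹ *
        ((X0 - s • X1) * (Matrix.of fun k i => rv (v i) k))ᵀ).det := by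
  have hdet : 0 < (gram A v).det := (gram_posDef hA hv).det_pos
  have hunit : IsUnit (gram A v).det := isUnit_iff_ne_zero.2 hdet.ne'
  have h1 : gram (formAt A X0 X1 s) v = gram A v * (1 + (gram A v)⁻¹ *
      (((X0 - s • X1) * (Matrix.of fun k i => rv (v i) k))ᵀ *
        ((X0 - s • X1) * (Matrix.of fun k i => rv (v i) k)))) := by
    rw [Matrix.mul_add, Matrix.mul_one, Matrix.mul_nonsing_inv_cancel_left _ _ hunit, poly_gram_eq,
      poly_gram_eq]
    unfold formAt
    rw [Matrix.mul_add, Matrix.add_mul, Matrix.transpose_mul]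
    simp only [Matrix.mul_assoc]
  rw [h1, Matrix.det_mul, ← Matrix.mul_assoc ((gram A v)⁻¹), Matrix.det_one_add_mul_comm,
    ← Matrix.mul_assoc]

theorem poly_quad {n : Type*} [Fintype n] [DecidableEq n] (A0 A1 A2 : Matrix n n ℝ) :
    ∃ p : ℝ[X], p.natDegree ≤ 2 * Fintype.card n ∧ p.coeff (2 * Fintype.card n) = A2.det ∧
      ∀ s, p.eval s = (A0 + s • A1 + s ^ 2 • A2).det := by
  set N : Matrix n n ℝ[X] := Matrix.of fun i j => C (A2 i j) * X ^ 2 + C (A1 i j) * X + C (A0 i j)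
    with hN
  have hdeg : ∀ i j, (N i j).natDegree ≤ 2 := fun i j => natDegree_quadratic_le
  have hco : ∀ i j, (N i j).coeff 2 = A2 i j := by
    intro i j
    rw [hN, Matrix.of_apply]
    simp
  have hprod : ∀ σ : Equiv.Perm n, (∏ i, N (σ i) i).natDegree ≤ 2 * Fintype.card n := by
    intro σ
    refine (natDegree_prod_le _ _).trans ?_
    refine (Finset.sum_le_card_nsmul _ _ 2 (fun i _ => hdeg _ _)).trans ?_
    rw [smul_eq_mul, Finset.card_univ, mul_comm]
  refine ⟨N.det, ?_, ?_, ?_⟩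
  · rw [Matrix.det_apply]
    refine natDegree_sum_le_of_forall_le _ _ (fun σ _ => ?_)
    refine (natDegree_smul_le _ _).trans (hprod σ)
  · rw [Matrix.det_apply, Matrix.det_apply, finsetSum_coeff]
    refine Finset.sum_congr rfl fun σ _ => ?_
    rw [coeff_smul]
    congr 1
    have h1 := coeff_prod_of_natDegree_le Finset.univ (fun i => N (σ i) i) 2 (fun i _ => hdeg _ _)
    rw [Finset.card_univ, mul_comm] at h1
    rw [h1]
    exact Finset.prod_congr rfl fun i _ => hco _ _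
  · intro s
    have h1 : N.det.eval s = (evalRingHom s) N.det := rfl
    rw [h1, RingHom.map_det]
    congr 1
    ext i j
    rw [RingHom.mapMatrix_apply, Matrix.map_apply, hN, Matrix.of_apply, coe_evalRingHom]
    simp only [eval_add, eval_mul, eval_C, eval_pow, eval_X, Matrix.add_apply, Matrix.smul_apply,
      smul_eq_mul]
    ring

theorem poly_expand {m n : Type*} [Fintype n] (B0 B1 : Matrix m n ℝ)
    (K : Matrix n n ℝ) (s : ℝ) :
    (B0 - s • B1) * K * (B0 - s • B1)ᵀ = B0 * K * B0ᵀ + s • (-(B0 * K * B1ᵀ + B1 * K * B0ᵀ)) +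
      s ^ 2 • (B1 * K * B1ᵀ) := by
  rw [Matrix.transpose_sub, Matrix.transpose_smul, Matrix.sub_mul, Matrix.sub_mul, Matrix.mul_sub,
    Matrix.mul_sub, Matrix.smul_mul, Matrix.smul_mul, Matrix.mul_smul, Matrix.smul_mul, Matrix.mul_smul,
    smul_smul, smul_neg, smul_add, sq]
  abel

theorem exists_poly {r d : ℕ} {A : Matrix (Fin r) (Fin r) ℝ} (hA : A.PosDef) (X0 X1 : Matrix (Fin d) (Fin r) ℝ)
    (Λ : Submodule ℤ (Fin r → ℤ)) :
    ∃ p : ℝ[X], p.natDegree ≤ 2 * d ∧ ∀ s, p.eval s = cov (formAt A X0 X1 s) Λ := by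
  set b := Module.finBasis ℤ Λ with hb
  have hv : LinearIndependent ℤ (fun i => ((b i : Λ) : Fin r → ℤ)) :=
    b.linearIndependent.map' Λ.subtype (Submodule.ker_subtype _)
  set V : Matrix (Fin r) (Fin (Module.finrank ℤ Λ)) ℝ := Matrix.of fun k i => rv ((b i : Λ) : Fin r → ℤ) k
    with hV
  set K := (gram A (fun i => ((b i : Λ) : Fin r → ℤ)))⁻¹ with hK
  obtain ⟨p, hp1, -, hp2⟩ := poly_quad (1 + (X0 * V) * K * (X0 * V)ᵀ)
    (-((X0 * V) * K * (X1 * V)ᵀ + (X1 * V) * K * (X0 * V)ᵀ)) ((X1 * V) * K * (X1 * V)ᵀ)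
  refine ⟨C (gram A (fun i => ((b i : Λ) : Fin r → ℤ))).det * p, ?_, ?_⟩
  · rw [Fintype.card_fin] at hp1
    exact (natDegree_C_mul_le _ _).trans hp1
  · intro s
    have h1 : cov (formAt A X0 X1 s) Λ =
        (gram (formAt A X0 X1 s) (fun i => ((b i : Λ) : Fin r → ℤ))).det := rfl
    rw [h1, gram_formAt_det hA X0 X1 hv s, eval_mul, eval_C, hp2 s, ← hK, ← hV]
    congr 2
    have h2 : (X0 - s • X1) * V = X0 * V - s • (X1 * V) := by
      rw [Matrix.sub_mul, Matrix.smul_mul]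
    rw [h2, poly_expand]
    abel

end Pool.Agent.MPac5134.Lat
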