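import Pool.Agent.Lib.MP_ac5134_an.KM.CovLe
import Pool.Agent.Lib.MP_ac5134_an.KM.Poly

/-!
# slow variation in s
-/

set_option autoImplicit false

namespace Pool.Agent.MPac5134.Lat

open Matrix Polynomial

private theorem slow_form {r d : ℕ} (A : Matrix (Fin r) (Fin r) ℝ)
    (X0 X1 : Matrix (Fin d) (Fin r) ℝ) (t : ℝ) (x : Fin r → ℝ) :
    x ⬝ᵥ (formAt A X0 X1 t *ᵥ x) =
      x ⬝ᵥ (A *ᵥ x) + ∑ i, ((X0 *ᵥ x) i - t * (X1 *ᵥ x) i) ^ 2 := by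
  unfold formAt
  rw [add_mulVec, dotProduct_add, ← mulVec_mulVec]
  congr 1
  rw [dotProduct_mulVec, vecMul_transpose, sub_mulVec, smul_mulVec, dotProduct]
  refine Finset.sum_congr rfl fun i _ => ?_
  simp only [Pi.sub_apply, Pi.smul_apply, smul_eq_mul]
  ring

theorem formAt_le {r d : ℕ} {N : ℝ} (hN : 1 ≤ N) {A : Matrix (Fin r) (Fin r) ℝ}
    (X0 X1 : Matrix (Fin d) (Fin r) ℝ)
    (h1 : ∀ v : Fin r → ℝ, (X1 *ᵥ v) ⬝ᵥ (X1 *ᵥ v) ≤ 4 * N ^ 2 * (v ⬝ᵥ (A *ᵥ v)))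
    {s s' : ℝ} (hs : |s - s'| ≤ 1 / N) (x : Fin r → ℝ) :
    x ⬝ᵥ (formAt A X0 X1 s' *ᵥ x) ≤ 9 * (x ⬝ᵥ (formAt A X0 X1 s *ᵥ x)) := by
  rw [slow_form, slow_form]
  have hN0 : 0 < N := by linarith
  have hx := h1 x
  set a := X0 *ᵥ x
  set b := X1 *ᵥ x
  have hb : b ⬝ᵥ b = ∑ i, b i ^ 2 := by
    rw [dotProduct]
    exact Finset.sum_congr rfl fun i _ => by ring
  rw [hb] at hx
  have h2 : ∑ i, (a i - s' * b i) ^ 2 ≤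
      2 * ∑ i, (a i - s * b i) ^ 2 + 2 * (s - s') ^ 2 * ∑ i, b i ^ 2 := by
    rw [Finset.mul_sum, Finset.mul_sum, ← Finset.sum_add_distrib]
    refine Finset.sum_le_sum fun i _ => ?_
    nlinarith [sq_nonneg ((a i - s * b i) - (s - s') * b i)]
  have h3 : (s - s') ^ 2 ≤ (1 / N) ^ 2 := by
    rw [← sq_abs (s - s')]
    exact pow_le_pow_left₀ (abs_nonneg _) hs 2
  have hb0 : 0 ≤ ∑ i, b i ^ 2 := Finset.sum_nonneg fun i _ => sq_nonneg _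
  have ha0 : 0 ≤ ∑ i, (a i - s * b i) ^ 2 := Finset.sum_nonneg fun i _ => sq_nonneg _
  have h4 : 2 * (s - s') ^ 2 * ∑ i, b i ^ 2 ≤ 8 * (x ⬝ᵥ (A *ᵥ x)) := by
    calc 2 * (s - s') ^ 2 * ∑ i, b i ^ 2 ≤ 2 * (1 / N) ^ 2 * ∑ i, b i ^ 2 := by gcongr
      _ ≤ 2 * (1 / N) ^ 2 * (4 * N ^ 2 * (x ⬝ᵥ (A *ᵥ x))) := by gcongr
      _ = 8 * (x ⬝ᵥ (A *ᵥ x)) := by field_simp; ring
  linarith

theorem cov_slow {r d : ℕ} {N : ℝ} (hN : 1 ≤ N) {A : Matrix (Fin r) (Fin r) ℝ} (hA : A.PosDef)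
    (X0 X1 : Matrix (Fin d) (Fin r) ℝ)
    (h1 : ∀ v : Fin r → ℝ, (X1 *ᵥ v) ⬝ᵥ (X1 *ᵥ v) ≤ 4 * N ^ 2 * (v ⬝ᵥ (A *ᵥ v)))
    {s s' : ℝ} (hs : |s - s'| ≤ 1 / N) (Λ : Submodule ℤ (Fin r → ℤ)) :
    cov (formAt A X0 X1 s') Λ ≤ 9 ^ r * cov (formAt A X0 X1 s) Λ :=
  cov_le_of_le (formAt_posDef hA X0 X1 s) (formAt_posDef hA X0 X1 s') (by norm_num)
    (fun x => formAt_le hN X0 X1 h1 hs x) Λ

end Pool.Agent.MPac5134.Lat
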