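import Pool.Agent.Lib.MP_ac5134_an.KM.Lat

/-!
# extension of bases of integer points
-/

set_option autoImplicit false

namespace Pool.Agent.MPac5134.Lat

open Matrix Polynomial

/-- a basis of the integer points of `U` extends to the integer points of `V ≥ U` -/
theorem exists_extend {r : ℕ} {U V : Submodule ℚ (Fin r → ℚ)} (hUV : U ≤ V) {ι : Type} [Fintype ι]
    (e : Module.Basis ι ℤ (lat U)) : ∃ (κ : Type) (_ : Fintype κ) (_ : DecidableEq κ)
      (b : Module.Basis (ι ⊕ κ) ℤ (lat V)), ∀ i, ((b (Sum.inl i) : lat V) : Fin r → ℤ) = ((e i : lat U) : Fin r → ℤ) := by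
  have hle : lat U ≤ lat V := fun v hv => mem_lat.2 (hUV (mem_lat.1 hv))
  set W : Submodule ℤ (lat V) := (lat U).submoduleOf (lat V) with hW
  have htf : Module.IsTorsionFree ℤ (lat V ⧸ W) := by
    refine Module.IsTorsionFree.of_smul_eq_zero fun k q hq => ?_
    obtain ⟨v, rfl⟩ := Submodule.Quotient.mk_surjective W q
    by_cases hk : k = 0
    · exact Or.inl hk
    · right
      rw [← Submodule.Quotient.mk_smul, Submodule.Quotient.mk_eq_zero] at hq
      rw [Submodule.Quotient.mk_eq_zero]
      have h1 : ((k • v : lat V) : Fin r → ℤ) ∈ lat U := hq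
      have h2 := mem_lat.1 h1
      have h3 : ((v : lat V) : Fin r → ℤ) ∈ lat U := by
        rw [mem_lat]
        have hk' : (k : ℚ) ≠ 0 := by exact_mod_cast hk
        have h4 := U.smul_mem ((k : ℚ)⁻¹) h2
        have h5 : ((k : ℚ)⁻¹ • fun j => ((((k • v : lat V) : Fin r → ℤ) j : ℤ) : ℚ))
            = fun j => ((((v : lat V) : Fin r → ℤ) j : ℤ) : ℚ) := by
          funext j
          simp only [Pi.smul_apply, smul_eq_mul, Submodule.coe_smul, Int.cast_mul]
          field_simp
        rwa [h5] at h4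
      exact h3
  have hfree : Module.Free ℤ (lat V ⧸ W) := inferInstance
  let bW : Module.Basis ι ℤ W := e.map (Submodule.submoduleOfEquivOfLe hle).symm
  let bQ := Module.finBasis ℤ (lat V ⧸ W)
  refine ⟨Fin (Module.finrank ℤ (lat V ⧸ W)), inferInstance, inferInstance,
    Module.Basis.sumQuot bW bQ, fun i => ?_⟩
  rw [Module.Basis.sumQuot_inl]
  rfl

end Pool.Agent.MPac5134.Lat
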