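import Pool.Agent.Lib.MP_ac5134_an.KM.CovIdx
import Pool.Agent.Lib.MP_ac5134_an.KM.LatExt
import Pool.Agent.Lib.MP_ac5134_an.KM.Psd

/-!
# submodularity of the Gram determinant
-/

set_option autoImplicit false

namespace Pool.Agent.MPac5134.Lat

open Matrix Polynomial

private theorem sub_linIndZ {r : ℕ} {Λ : Submodule ℤ (Fin r → ℤ)} {ι : Type*}
    (b : Module.Basis ι ℤ Λ) : LinearIndependent ℤ (fun i => ((b i : Λ) : Fin r → ℤ)) :=
  b.linearIndependent.map' Λ.subtype (Submodule.ker_subtype Λ)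

private theorem sub_linInd {r : ℕ} {U : Submodule ℚ (Fin r → ℚ)} {ι : Type*}
    (b : Module.Basis ι ℤ (lat U)) :
    LinearIndependent ℚ (fun i k => ((((b i : lat U) : Fin r → ℤ) k : ℤ) : ℚ)) :=
  (linInd_cast _).mp (sub_linIndZ b)

private theorem sub_span {r : ℕ} {U : Submodule ℚ (Fin r → ℚ)} {ι : Type*} [Fintype ι]
    (b : Module.Basis ι ℤ (lat U)) :
    Submodule.span ℚ (Set.range (fun i k => ((((b i : lat U) : Fin r → ℤ) k : ℤ) : ℚ))) = U := by
  apply Submodule.eq_of_le_of_finrank_eq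
  · rw [Submodule.span_le]
    rintro _ ⟨i, rfl⟩
    exact mem_lat.mp (b i).2
  · rw [finrank_span_eq_card (sub_linInd b), ← finrank_lat, Module.finrank_eq_card_basis b]

theorem cov_submod {r : ℕ} {G : Matrix (Fin r) (Fin r) ℝ} (hG : G.PosDef) (U V : Submodule ℚ (Fin r → ℚ)) :
    cov G (lat (U ⊓ V)) * cov G (lat (U ⊔ V)) ≤ cov G (lat U) * cov G (lat V) := by
  classical
  obtain ⟨m, ⟨e⟩⟩ : ∃ m : ℕ, Nonempty (Module.Basis (Fin m) ℤ (lat (U ⊓ V))) :=
    ⟨_, ⟨Module.finBasis ℤ (lat (U ⊓ V))⟩⟩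
  obtain ⟨κ, _, _, bU, hbU⟩ := exists_extend (inf_le_left : U ⊓ V ≤ U) e
  obtain ⟨μ, _, _, bV, hbV⟩ := exists_extend (inf_le_right : U ⊓ V ≤ V) e
  -- the family
  let w : Fin m ⊕ (κ ⊕ μ) → Fin r → ℤ :=
    Sum.elim (fun i => ((e i : lat (U ⊓ V)) : Fin r → ℤ))
      (Sum.elim (fun k => ((bU (Sum.inr k) : lat U) : Fin r → ℤ))
        (fun k => ((bV (Sum.inr k) : lat V) : Fin r → ℤ)))
  have hwU : ∀ i, w (Sum.map id Sum.inl i) = ((bU i : lat U) : Fin r → ℤ) := by
    rintro (i | k)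
    · exact (hbU i).symm
    · rfl
  have hwV : ∀ i, w (Sum.map id Sum.inr i) = ((bV i : lat V) : Fin r → ℤ) := by
    rintro (i | k)
    · exact (hbV i).symm
    · rfl
  -- dimensions
  have hdU : Module.finrank ℚ U = m + Fintype.card κ := by
    rw [← finrank_lat, Module.finrank_eq_card_basis bU, Fintype.card_sum, Fintype.card_fin]
  have hdV : Module.finrank ℚ V = m + Fintype.card μ := by
    rw [← finrank_lat, Module.finrank_eq_card_basis bV, Fintype.card_sum, Fintype.card_fin]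
  have hdW : Module.finrank ℚ (U ⊓ V : Submodule ℚ (Fin r → ℚ)) = m := by
    rw [← finrank_lat, Module.finrank_eq_card_basis e, Fintype.card_fin]
  have hd := Submodule.finrank_sup_add_finrank_inf_eq U V
  have hcard : Fintype.card (Fin m ⊕ (κ ⊕ μ)) = Module.finrank ℚ (U ⊔ V : Submodule ℚ (Fin r → ℚ)) := by
    rw [Fintype.card_sum, Fintype.card_sum, Fintype.card_fin]
    omega
  -- the span
  have hspan : Submodule.span ℚ (Set.range (fun i k => ((w i k : ℤ) : ℚ))) = U ⊔ V := by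
    apply le_antisymm
    · rw [Submodule.span_le]
      rintro _ ⟨i, rfl⟩
      rcases i with i | (k | k)
      · exact (le_sup_left : U ≤ U ⊔ V) ((inf_le_left : U ⊓ V ≤ U) (mem_lat.mp (e i).2))
      · exact (le_sup_left : U ≤ U ⊔ V) (mem_lat.mp (bU (Sum.inr k)).2)
      · exact (le_sup_right : V ≤ U ⊔ V) (mem_lat.mp (bV (Sum.inr k)).2)
    · apply sup_le
      · rw [← sub_span bU]
        apply Submodule.span_mono
        rintro _ ⟨i, rfl⟩
        exact ⟨Sum.map id Sum.inl i, by simp only [hwU]⟩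
      · rw [← sub_span bV]
        apply Submodule.span_mono
        rintro _ ⟨i, rfl⟩
        exact ⟨Sum.map id Sum.inr i, by simp only [hwV]⟩
  have hwQ : LinearIndependent ℚ (fun i k => ((w i k : ℤ) : ℚ)) := by
    rw [linearIndependent_iff_card_eq_finrank_span, Set.finrank, hspan, hcard]
  have hwZ : LinearIndependent ℤ w := (linInd_cast w).mpr hwQ
  have hP : (gram G w).PosDef := gram_posDef hG hwZ
  have hwmem : ∀ i, w i ∈ lat (U ⊔ V) := by
    intro i
    rw [mem_lat, ← hspan]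
    exact Submodule.subset_span ⟨i, rfl⟩
  obtain ⟨b, M, -, hM, hdet⟩ := gram_det_index G (lat (U ⊔ V)) w hwZ hwmem
    (by rw [finrank_lat, hcard])
  have hM1 : (1 : ℝ) ≤ (M.det : ℝ) ^ 2 := by
    have h1 : (1 : ℤ) ≤ M.det ^ 2 := by
      have : 0 < M.det ^ 2 := by positivity
      omega
    exact_mod_cast h1
  have hsup : cov G (lat (U ⊔ V)) ≤ (gram G w).det := by
    rw [hdet]
    have := cov_pos hG (lat (U ⊔ V))
    nlinarith
  have h1 : ((gram G w).submatrix Sum.inl Sum.inl).det = cov G (lat (U ⊓ V)) := by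
    rw [cov_eq G _ e]
    rfl
  have h2 : ((gram G w).submatrix (Sum.map id Sum.inl) (Sum.map id Sum.inl)).det
      = cov G (lat U) := by
    rw [cov_eq G _ bU]
    congr 1
    ext i j
    simp only [gram, Matrix.submatrix_apply, Matrix.of_apply, hwU]
  have h3 : ((gram G w).submatrix (Sum.map id Sum.inr) (Sum.map id Sum.inr)).det
      = cov G (lat V) := by
    rw [cov_eq G _ bV]
    congr 1
    ext i j
    simp only [gram, Matrix.submatrix_apply, Matrix.of_apply, hwV]
  have hk := koteljanskii hP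
  rw [h1, h2, h3] at hk
  exact (mul_le_mul_of_nonneg_left hsup (cov_pos hG _).le).trans hk

end Pool.Agent.MPac5134.Lat
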