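import Pool.Agent.Lib.MP_ac5134_an.KM.Sup1
import Pool.Agent.Lib.MP_ac5134_an.KM.Poly

/-!
# lower bound for the maximum on [a,a+1]
-/

set_option autoImplicit false

namespace Pool.Agent.MPac5134.Lat

open Matrix Polynomial

private theorem sup2_sub {d : ℕ} {ι : Type} [Fintype ι] (B : Matrix (Fin d) ι ℝ)
    (K : Matrix ι ι ℝ) (I : Finset (Fin d)) :
    (B * K * Bᵀ).submatrix (Subtype.val : I → Fin d) (Subtype.val : I → Fin d) =
      (B.submatrix (Subtype.val : I → Fin d) id) * K * (B.submatrix (Subtype.val : I → Fin d) id)ᵀ := by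
  ext i j
  rfl

private theorem sup2_psd {d : ℕ} {ι : Type} [Fintype ι] (B : Matrix (Fin d) ι ℝ)
    {K : Matrix ι ι ℝ} (hK : K.PosDef) : (B * K * Bᵀ).PosSemidef := by
  rw [← conjTranspose_eq_transpose_of_trivial]
  exact hK.posSemidef.mul_mul_conjTranspose_same B

private theorem sup2_minor {d : ℕ} {S : Matrix (Fin d) (Fin d) ℝ} (hS : S.PosSemidef)
    (I : Finset (Fin d)) :
    0 ≤ (S.submatrix (Subtype.val : I → Fin d) (Subtype.val : I → Fin d)).det :=
  (hS.submatrix _).det_nonneg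

/-- the key estimate: `B s = B0 - s B1`, `K` positive definite -/
theorem det_sup (d : ℕ) : ∃ c : ℝ, 0 < c ∧ ∀ {ι : Type} [Fintype ι] [DecidableEq ι] (B0 B1 : Matrix (Fin d) ι ℝ)
    (K : Matrix ι ι ℝ), K.PosDef → ∀ a : ℝ, ∃ s ∈ Set.Icc a (a + 1),
      c * (1 + B1 * K * B1ᵀ).det ≤ (1 + (B0 - s • B1) * K * (B0 - s • B1)ᵀ).det := by
  obtain ⟨c, hc, hmon⟩ := monic_large (2 * d)
  refine ⟨c / 2 ^ d, by positivity, ?_⟩
  intro ι _ _ B0 B1 K hK a
  -- a large principal minor of `B1 K B1ᵀ`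
  set S1 : Matrix (Fin d) (Fin d) ℝ := B1 * K * B1ᵀ with hS1
  have hS1psd : S1.PosSemidef := sup2_psd B1 hK
  obtain ⟨I, -, hI⟩ := Finset.exists_max_image (Finset.univ : Finset (Finset (Fin d)))
    (fun I => (S1.submatrix (Subtype.val : I → Fin d) (Subtype.val : I → Fin d)).det)
    ⟨∅, Finset.mem_univ _⟩
  have hle : (1 + S1).det ≤ 2 ^ d *
      (S1.submatrix (Subtype.val : I → Fin d) (Subtype.val : I → Fin d)).det := by
    rw [det_one_add]
    refine (Finset.sum_le_card_nsmul _ _ _ (fun J _ => hI J (Finset.mem_univ _))).trans ?_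
    rw [Finset.card_univ, Fintype.card_finset, Fintype.card_fin, nsmul_eq_mul]
    push_cast
    exact le_refl _
  have hpos1 : 1 ≤ (S1.submatrix (Subtype.val : I → Fin d) (Subtype.val : I → Fin d)).det := by
    have h1 := hI ∅ (Finset.mem_univ _)
    have h2 : (S1.submatrix (Subtype.val : (∅ : Finset (Fin d)) → Fin d)
        (Subtype.val : (∅ : Finset (Fin d)) → Fin d)).det = 1 := by
      exact Matrix.det_isEmpty
    rw [h2] at h1
    exact h1
  -- the polynomial
  obtain ⟨p, hp1, hp2, hp3⟩ := poly_quad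
    ((B0.submatrix (Subtype.val : I → Fin d) id) * K * (B0.submatrix (Subtype.val : I → Fin d) id)ᵀ)
    (-((B0.submatrix (Subtype.val : I → Fin d) id) * K * (B1.submatrix (Subtype.val : I → Fin d) id)ᵀ +
      (B1.submatrix (Subtype.val : I → Fin d) id) * K * (B0.submatrix (Subtype.val : I → Fin d) id)ᵀ))
    ((B1.submatrix (Subtype.val : I → Fin d) id) * K * (B1.submatrix (Subtype.val : I → Fin d) id)ᵀ)
  rw [← sup2_sub B1 K I, ← hS1] at hp2
  have hcardI : Fintype.card I ≤ d := by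
    have h1 := Finset.card_le_univ I
    rw [Fintype.card_fin] at h1
    rwa [Fintype.card_coe]
  have hdeg : p.natDegree ≤ 2 * d := hp1.trans (Nat.mul_le_mul_left 2 hcardI)
  have hdeg2 : p.natDegree = 2 * Fintype.card I := by
    refine le_antisymm hp1 (le_natDegree_of_ne_zero ?_)
    rw [hp2]
    linarith
  have hlead : p.leadingCoeff =
      (S1.submatrix (Subtype.val : I → Fin d) (Subtype.val : I → Fin d)).det := by
    rw [leadingCoeff, hdeg2, hp2]
  obtain ⟨s, hs, hbig⟩ := hmon p hdeg a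
  refine ⟨s, hs, ?_⟩
  set S : Matrix (Fin d) (Fin d) ℝ := (B0 - s • B1) * K * (B0 - s • B1)ᵀ with hS
  have hSpsd : S.PosSemidef := sup2_psd _ hK
  have heval : p.eval s = (S.submatrix (Subtype.val : I → Fin d) (Subtype.val : I → Fin d)).det := by
    rw [hp3, hS, sup2_sub]
    congr 1
    have h1 : (B0 - s • B1).submatrix (Subtype.val : I → Fin d) id =
        (B0.submatrix (Subtype.val : I → Fin d) id) - s • (B1.submatrix (Subtype.val : I → Fin d) id) := by
      ext i j
      rfl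
    rw [h1, poly_expand]
  have hge : (S.submatrix (Subtype.val : I → Fin d) (Subtype.val : I → Fin d)).det ≤ (1 + S).det := by
    rw [det_one_add S]
    exact Finset.single_le_sum (f := fun J : Finset (Fin d) =>
      (S.submatrix (Subtype.val : J → Fin d) (Subtype.val : J → Fin d)).det)
      (fun J _ => sup2_minor hSpsd J) (Finset.mem_univ I)
  rw [heval, hlead, abs_of_nonneg (sup2_minor hSpsd I), abs_of_nonneg (by linarith)] at hbig
  calc c / 2 ^ d * (1 + S1).det ≤ c / 2 ^ d * (2 ^ d *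
      (S1.submatrix (Subtype.val : I → Fin d) (Subtype.val : I → Fin d)).det) :=
        mul_le_mul_of_nonneg_left hle (by positivity)
    _ = c * (S1.submatrix (Subtype.val : I → Fin d) (Subtype.val : I → Fin d)).det := by
        field_simp
    _ ≤ (1 + S).det := hbig.trans hge

theorem cov_sup (d : ℕ) : ∃ c : ℝ, 0 < c ∧ ∀ {r : ℕ} {A : Matrix (Fin r) (Fin r) ℝ}, A.PosDef →
    ∀ (X0 X1 : Matrix (Fin d) (Fin r) ℝ) (Λ : Submodule ℤ (Fin r → ℤ)) (a : ℝ), ∃ s ∈ Set.Icc a (a + 1),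
      c * cov (A + X1ᵀ * X1) Λ ≤ cov (formAt A X0 X1 s) Λ := by
  obtain ⟨c, hc, hdet⟩ := det_sup d
  refine ⟨c, hc, ?_⟩
  intro r A hA X0 X1 Λ a
  set b := Module.finBasis ℤ Λ with hb
  have hv : LinearIndependent ℤ (fun i => ((b i : Λ) : Fin r → ℤ)) :=
    b.linearIndependent.map' Λ.subtype (Submodule.ker_subtype _)
  have hK : (gram A (fun i => ((b i : Λ) : Fin r → ℤ)))⁻¹.PosDef := (gram_posDef hA hv).inv
  have hpos : 0 < (gram A (fun i => ((b i : Λ) : Fin r → ℤ))).det := (gram_posDef hA hv).det_pos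
  obtain ⟨s, hs, hle⟩ := hdet (X0 * (Matrix.of fun k i => rv ((b i : Λ) : Fin r → ℤ) k))
    (X1 * (Matrix.of fun k i => rv ((b i : Λ) : Fin r → ℤ) k)) _ hK a
  refine ⟨s, hs, ?_⟩
  have h1 : cov (formAt A X0 X1 s) Λ =
      (gram (formAt A X0 X1 s) (fun i => ((b i : Λ) : Fin r → ℤ))).det := rfl
  have h2 : A + X1ᵀ * X1 = formAt A X1 0 0 := by
    unfold formAt
    rw [smul_zero, sub_zero]
  have h3 : cov (A + X1ᵀ * X1) Λ =
      (gram (formAt A X1 0 0) (fun i => ((b i : Λ) : Fin r → ℤ))).det := by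
    rw [← h2]
    rfl
  rw [h1, h3, gram_formAt_det hA X0 X1 hv s, gram_formAt_det hA X1 0 hv 0, smul_zero, sub_zero,
    Matrix.sub_mul, Matrix.smul_mul]
  calc c * ((gram A (fun i => ((b i : Λ) : Fin r → ℤ))).det * _)
      = (gram A (fun i => ((b i : Λ) : Fin r → ℤ))).det * (c * _) := by ring
    _ ≤ _ := mul_le_mul_of_nonneg_left hle hpos.le

end Pool.Agent.MPac5134.Lat
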