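import Pool.Agent.Lib.MP_ac5134_an.LatTree
import Pool.Agent.Lib.MP_ac5134_an.KM.Sub
import Pool.Agent.Lib.MP_ac5134_an.KM.Sup2
import Pool.Agent.Lib.MP_ac5134_an.KM.CountB
import Pool.Agent.Lib.MP_ac5134_an.KM.Slow

/-!
# The weak type bound for the number of lattice points in the forms `A + (X₀ - s X₁)ᵀ (X₀ - s X₁)`

The system of polynomials to which the sharp nondivergence theorem `PolySys.nondiv` is applied: the modular lattice
of the rational subspaces `U` of `Q^r`, and the Gram determinants of the groups `lat U` of their integer points.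
-/

set_option autoImplicit false

namespace Pool.Agent.MPac5134.Lat

open Matrix Polynomial MeasureTheory

theorem qf_smul {r : ℕ} (Q : Matrix (Fin r) (Fin r) ℝ) (k : ℤ) (n : Fin r → ℤ) :
    qf Q (k • n) = (k : ℝ) ^ 2 * qf Q n := by
  have h : rv (k • n) = (k : ℝ) • rv n := by
    funext i; simp [rv]
  unfold qf
  rw [h, mulVec_smul, dotProduct_smul, smul_dotProduct, smul_eq_mul, smul_eq_mul]
  ring

/-- a bound for the number of the integer vectors in the unit ball gives a lower bound for the shortest one -/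
theorem short_of_card {r : ℕ} {Q : Matrix (Fin r) (Fin r) ℝ} {E₀ : ℝ}
    (h : ∀ T : Finset (Fin r → ℤ), (∀ n ∈ T, qf Q n ≤ 1) → (T.card : ℝ) ≤ E₀)
    (hQ : ∀ n, 0 ≤ qf Q n) {v : Fin r → ℤ} (hv : v ≠ 0) : 1 / (|E₀| + 1) ^ 2 ≤ qf Q v := by
  classical
  by_contra hcon
  push Not at hcon
  set K : ℕ := ⌈|E₀|⌉₊ with hK
  have hK1 : (K : ℝ) < |E₀| + 1 := Nat.ceil_lt_add_one (abs_nonneg _)
  have hK2 : |E₀| ≤ K := Nat.le_ceil _
  have hE : 0 < |E₀| + 1 := by positivity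
  have hinj : Function.Injective (fun k : ℤ => k • v) := by
    intro k l hkl
    obtain ⟨i, hi⟩ : ∃ i, v i ≠ 0 := by
      by_contra h0
      push Not at h0
      exact hv (funext h0)
    have h1 := congrFun hkl i
    simp only [Pi.smul_apply, smul_eq_mul] at h1
    exact mul_right_cancel₀ hi h1
  have h1 := h ((Finset.Icc (-(K : ℤ)) K).image (fun k : ℤ => k • v)) (by
    intro n hn
    rw [Finset.mem_image] at hn
    obtain ⟨k, hk, rfl⟩ := hn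
    rw [Finset.mem_Icc] at hk
    rw [qf_smul]
    have h2 : (k : ℝ) ^ 2 ≤ (K : ℝ) ^ 2 := by
      apply sq_le_sq'
      · exact_mod_cast hk.1
      · exact_mod_cast hk.2
    have h3 : (K : ℝ) ^ 2 ≤ (|E₀| + 1) ^ 2 := by
      apply pow_le_pow_left₀ (by positivity) hK1.le
    calc (k : ℝ) ^ 2 * qf Q v ≤ (|E₀| + 1) ^ 2 * (1 / (|E₀| + 1) ^ 2) := by
          apply mul_le_mul (h2.trans h3) hcon.le (hQ v) (by positivity)
      _ = 1 := by field_simp)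
  rw [Finset.card_image_of_injective _ hinj, Int.card_Icc] at h1
  have h4 : (((K : ℤ) + 1 - -(K : ℤ)).toNat : ℝ) = 2 * K + 1 := by
    have : ((K : ℤ) + 1 - -(K : ℤ)).toNat = 2 * K + 1 := by omega
    rw [this]; push_cast; ring
  rw [h4] at h1
  have h5 : E₀ ≤ |E₀| := le_abs_self _
  have h6 : (0 : ℝ) ≤ K := Nat.cast_nonneg _
  linarith

/-- the Gram determinants of the groups of integer points of the rational subspaces form a `PolySys` -/
theorem exists_polySys {r d : ℕ} {A : Matrix (Fin r) (Fin r) ℝ} (hA : A.PosDef)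
    (X₀ X₁ : Matrix (Fin d) (Fin r) ℝ) {δ : ℝ} (hδ : 0 < δ)
    (hlow : ∀ (U : Submodule ℚ (Fin r → ℚ)) (s : ℝ), δ ≤ cov (formAt A X₀ X₁ s) (lat U)) :
    ∃ S : PolySys (Submodule ℚ (Fin r → ℚ)) r (2 * d), ∀ U s, (S.P U).eval s = cov (formAt A X₀ X₁ s) (lat U) := by
  classical
  choose p hp1 hp2 using fun U : Submodule ℚ (Fin r → ℚ) => exists_poly hA X₀ X₁ (lat U)
  refine ⟨{
    rk := fun U => Module.finrank ℚ U
    rk_le := fun U => by simpa using Submodule.finrank_le U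
    rk_add := fun U V => by
      have := Submodule.finrank_sup_add_finrank_inf_eq U V
      omega
    rk_lt := fun U V h => Submodule.finrank_lt_finrank_of_lt h
    P := p
    deg := hp1
    pos := fun U s => by rw [hp2]; exact cov_pos (formAt_posDef hA X₀ X₁ s) _
    low := ⟨δ, hδ, fun U s => by rw [hp2]; exact hlow U s⟩
    sub := fun U V s => by
      rw [hp2, hp2, hp2, hp2]
      exact cov_submod (formAt_posDef hA X₀ X₁ s) U V }, hp2⟩

theorem qf_formAt_ge {r d : ℕ} (A : Matrix (Fin r) (Fin r) ℝ) (X₀ X₁ : Matrix (Fin d) (Fin r) ℝ) (s : ℝ)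
    (n : Fin r → ℤ) : qf A n ≤ qf (formAt A X₀ X₁ s) n := by
  unfold formAt
  rw [qf_add, qf_transpose_mul]
  have : 0 ≤ ∑ i, ((X₀ - s • X₁) *ᵥ rv n) i ^ 2 := Finset.sum_nonneg fun i _ => sq_nonneg _
  linarith

/-- The weak type bound, with a constant that is explicit in the rank. -/
theorem core_explicit (d : ℕ) (hd : 1 ≤ d) {ε : ℝ} (hε : 0 < ε) : ∃ a₀ : ℝ, 1 ≤ a₀ ∧
    ∀ (r : ℕ) (B E₀ : ℝ), 1 ≤ B → 0 ≤ E₀ →
    ∀ N : ℝ, 1 ≤ N → ∀ A : Matrix (Fin r) (Fin r) ℝ, A.PosDef → ∀ X₀ X₁ : Matrix (Fin d) (Fin r) ℝ,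
    (∀ v : Fin r → ℝ, (X₁ *ᵥ v) ⬝ᵥ (X₁ *ᵥ v) ≤ 4 * N ^ 2 * (v ⬝ᵥ (A *ᵥ v))) →
    (∀ T : Finset (Fin r → ℤ), (∀ n ∈ T, qf (A + X₁ᵀ * X₁) n ≤ 1) → (T.card : ℝ) ≤ E₀) →
    ∀ a lam : ℝ, 0 < lam →
    volume {s : ℝ | s ∈ Set.Icc a (a + 1) ∧ ∃ T : Finset (Fin r → ℤ),
        (∀ n ∈ T, qf (formAt A X₀ X₁ s) n ≤ B) ∧ lam ≤ (T.card : ℝ)} ≤
      ENNReal.ofReal (((a₀ * (r + 2)) ^ (a₀ * ((r : ℝ) + 1) ^ 2) * (B * (E₀ + 1) ^ 2) ^ r) *
        N ^ ε * lam ^ (-(1 / (d : ℝ)))) := by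
  obtain ⟨cd₀, hcd₀, hsup₀⟩ := cov_sup d
  obtain ⟨A₀, hA₀, hnd⟩ := PolySys.nondiv_explicit.{0} (m := 2 * d) (by omega) hε
  set cd : ℝ := min cd₀ 1 with hcddef
  have hcd : 0 < cd := lt_min hcd₀ one_pos
  have hcd1 : cd ≤ 1 := min_le_right _ _
  have hcd₀' : cd ≤ cd₀ := min_le_left _ _
  have hd0 : (0 : ℝ) < d := by exact_mod_cast hd
  refine ⟨A₀ + 4 + 81 * (3 / cd), by
    have : 0 < 3 / cd := by positivity
    linarith, ?_⟩
  intro r B E₀ hB hE N hN A hA X₀ X₁ h1 h2 a lam hlam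
  have hr0 : (0 : ℝ) ≤ r := Nat.cast_nonneg r
  have h9 : (1 : ℝ) ≤ 9 ^ r := one_le_pow₀ (by norm_num)
  set cr : ℝ := (1 / (2 * (r : ℝ) + 1)) ^ r with hcrdef
  have hcr : 0 < cr := by positivity
  set μ : ℝ := 1 / (E₀ + 1) ^ 2 with hμ
  have hE1 : 0 < E₀ + 1 := by positivity
  have hμ0 : 0 < μ := by positivity
  have hμ1 : μ ≤ 1 := by
    rw [hμ, div_le_one (by positivity)]
    exact one_le_pow₀ (by linarith)
  set ρ : ℝ := cd * (cr * μ ^ r) with hρ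
  have hρ0 : 0 < ρ := by positivity
  have hN0 : 0 < N := by linarith
  have hqA : ∀ n, 0 ≤ qf A n := fun n => by
    have := hA.posSemidef.dotProduct_mulVec_nonneg (rv n)
    simpa [qf] using this
  have hqs : ∀ n, qf (A + X₁ᵀ * X₁) n = qf A n + (X₁ *ᵥ rv n) ⬝ᵥ (X₁ *ᵥ rv n) := fun n => by
    rw [qf_add, qf_transpose_mul, dotProduct]
    congr 1
    exact Finset.sum_congr rfl fun i _ => by ring
  have hdp : ∀ x : Fin d → ℝ, 0 ≤ x ⬝ᵥ x := fun x => by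
    rw [dotProduct]; exact Finset.sum_nonneg fun i _ => mul_self_nonneg _
  have hsh : ∀ v : Fin r → ℤ, v ≠ 0 → μ ≤ qf (A + X₁ᵀ * X₁) v := fun v hv => by
    have h3 := short_of_card h2 (fun n => by rw [hqs]; exact add_nonneg (hqA n) (hdp _)) hv
    rwa [abs_of_nonneg hE] at h3
  have hsA : ∀ v : Fin r → ℤ, v ≠ 0 → μ / (5 * N ^ 2) ≤ qf A v := by
    intro v hv
    have h3 := hsh v hv
    rw [hqs] at h3
    have h4 := h1 (rv v)
    have h5 : qf A v = rv v ⬝ᵥ (A *ᵥ rv v) := rfl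
    rw [← h5] at h4
    rw [div_le_iff₀ (by positivity)]
    have h6 : 1 ≤ N ^ 2 := one_le_pow₀ hN
    nlinarith [hqA v]
  have hm1 : μ / (5 * N ^ 2) ≤ 1 := by
    rw [div_le_one (by positivity)]
    have h6 : 1 ≤ N ^ 2 := one_le_pow₀ hN
    linarith
  have hm0 : 0 < μ / (5 * N ^ 2) := by positivity
  -- the system
  obtain ⟨S, hS⟩ := exists_polySys hA X₀ X₁ (δ := cr * (μ / (5 * N ^ 2)) ^ r) (by positivity) (fun U s =>
    cov_lower (formAt_posDef hA X₀ X₁ s) hm0 hm1 (fun v hv => (hsA v hv).trans (qf_formAt_ge A X₀ X₁ s v)) _)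
  have hA1 : (A + X₁ᵀ * X₁).PosDef := by
    have h3 := formAt_posDef hA X₁ 0 0
    have h4 : formAt A X₁ 0 0 = A + X₁ᵀ * X₁ := by simp [formAt]
    rwa [h4] at h3
  have hρsup : ∀ U, ρ ≤ supOn (S.P U) a (a + 1) := by
    intro U
    obtain ⟨s, hs, h3⟩ := hsup₀ hA X₀ X₁ (lat U) a
    have h4 := cov_lower hA1 hμ0 hμ1 hsh (lat U)
    have h5 := cov_pos hA1 (lat U)
    calc ρ ≤ cd₀ * cov (A + X₁ᵀ * X₁) (lat U) := by rw [hρ]; gcongr
      _ ≤ cov (formAt A X₀ X₁ s) (lat U) := h3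
      _ = (S.P U).eval s := (hS U s).symm
      _ ≤ _ := le_supOn _ hs
  set η : ℝ := 9 ^ r * B ^ r / lam ^ 2 with hη
  have hη0 : 0 < η := by positivity
  have h5 := hnd r (9 ^ r) h9 _ S N hN (fun U s s' hss => by
    rw [hS, hS]
    exact cov_slow hN hA X₀ X₁ h1 hss _) ρ a hρ0 hρsup η hη0
  refine (measure_mono ?_).trans (h5.trans (ENNReal.ofReal_le_ofReal ?_))
  · rintro s ⟨hs, T, hT, hlT⟩
    refine ⟨hs, ?_⟩
    obtain ⟨U, hU⟩ := card_le (formAt_posDef hA X₀ X₁ s) hB T hT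
    refine ⟨U, ?_⟩
    rw [hS, hη, le_div_iff₀ (by positivity)]
    have h6 : lam ^ 2 ≤ (T.card : ℝ) ^ 2 := pow_le_pow_left₀ hlam.le hlT 2
    have h7 := cov_pos (formAt_posDef hA X₀ X₁ s) (lat U)
    calc cov (formAt A X₀ X₁ s) (lat U) * lam ^ 2 ≤ cov (formAt A X₀ X₁ s) (lat U) * (T.card : ℝ) ^ 2 := by gcongr
      _ = (T.card : ℝ) ^ 2 * cov (formAt A X₀ X₁ s) (lat U) := mul_comm _ _
      _ ≤ _ := hU
  · have h6 : (η / ρ) ^ (1 / ((2 * d : ℕ) : ℝ)) =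
        ((9 ^ r * B ^ r) / ρ) ^ (1 / ((2 * d : ℕ) : ℝ)) * lam ^ (-(1 / (d : ℝ))) := by
      have h7 : η / ρ = ((9 ^ r * B ^ r) / ρ) * (lam ^ 2)⁻¹ := by
        rw [hη]; field_simp
      rw [h7, Real.mul_rpow (by positivity) (by positivity)]
      congr 1
      rw [← Real.rpow_natCast lam 2, ← Real.rpow_neg hlam.le, ← Real.rpow_mul hlam.le]
      congr 1
      push_cast
      field_simp
    rw [h6]
    -- the constant
    set Z : ℝ := (9 ^ r * B ^ r) / ρ with hZ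
    have hZe : Z = 9 ^ r * (1 / cd) * (2 * (r : ℝ) + 1) ^ r * (B * (E₀ + 1) ^ 2) ^ r := by
      rw [hZ, hρ, hcrdef, hμ]
      rw [mul_pow B, _root_.one_div_pow, _root_.one_div_pow]
      field_simp
    have hZ1 : 1 ≤ Z := by
      rw [hZe]
      have e1 : 1 ≤ 1 / cd := by rw [le_div_iff₀ hcd]; linarith
      have e2 : (1 : ℝ) ≤ (2 * (r : ℝ) + 1) ^ r := one_le_pow₀ (by linarith)
      have e3 : (1 : ℝ) ≤ (B * (E₀ + 1) ^ 2) ^ r :=
        one_le_pow₀ (one_le_mul_of_one_le_of_one_le hB (one_le_pow₀ (by linarith)))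
      exact one_le_mul_of_one_le_of_one_le (one_le_mul_of_one_le_of_one_le
        (one_le_mul_of_one_le_of_one_le h9 e1) e2) e3
    have hq1 : 1 / ((2 * d : ℕ) : ℝ) ≤ 1 := by
      have : (1 : ℝ) ≤ ((2 * d : ℕ) : ℝ) := by exact_mod_cast (by omega : 1 ≤ 2 * d)
      rw [div_le_one (by linarith)]; exact this
    have hZle : Z ^ (1 / ((2 * d : ℕ) : ℝ)) ≤ Z := by
      calc Z ^ (1 / ((2 * d : ℕ) : ℝ)) ≤ Z ^ (1 : ℝ) := Real.rpow_le_rpow_of_exponent_le hZ1 hq1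
        _ = Z := Real.rpow_one Z
    set a₀ : ℝ := A₀ + 4 + 81 * (3 / cd) with ha₀
    have h3cd : 0 < 3 / cd := by positivity
    have hmain : 9 ^ r * (A₀ * (r + 2)) ^ (A₀ * ((r : ℝ) + 1) ^ 2) *
        (9 ^ r * (1 / cd) * (2 * (r : ℝ) + 1) ^ r) ≤
        (a₀ * (r + 2)) ^ (a₀ * ((r : ℝ) + 1) ^ 2) := by
      have hY1 : 1 ≤ a₀ * ((r : ℝ) + 2) :=
        one_le_mul_of_one_le_of_one_le (by linarith) (by linarith)
      have e1 : (A₀ * ((r : ℝ) + 2)) ^ (A₀ * ((r : ℝ) + 1) ^ 2) ≤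
          (a₀ * (r + 2)) ^ (A₀ * ((r : ℝ) + 1) ^ 2) := by
        apply Real.rpow_le_rpow (by positivity) _ (by positivity)
        have : A₀ ≤ a₀ := by linarith
        gcongr
      have e2 : (9 : ℝ) ^ r * (9 ^ r * (1 / cd) * (2 * (r : ℝ) + 1) ^ r) ≤
          (a₀ * (r + 2)) ^ (4 * ((r : ℝ) + 1) ^ 2) := by
        have e3 : (1:ℝ) / cd ≤ a₀ * (r + 2) := by
          have e4 : 1 / cd ≤ 3 / cd := by gcongr; norm_num
          have e5 : 1 / cd ≤ a₀ := by linarith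
          exact e5.trans (le_mul_of_one_le_right (by linarith) (by linarith))
        have e6 : (81 : ℝ) ^ r ≤ (a₀ * (r + 2)) ^ r := by
          apply pow_le_pow_left₀ (by norm_num)
          have e7 : (3:ℝ) ≤ 3 / cd := by rw [le_div_iff₀ hcd]; linarith
          have e8 : (81 : ℝ) ≤ a₀ := by linarith
          exact e8.trans (le_mul_of_one_le_right (by linarith) (by linarith))
        have e9 : (2 * (r : ℝ) + 1) ^ r ≤ (a₀ * (r + 2)) ^ r := by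
          apply pow_le_pow_left₀ (by positivity)
          have : (2:ℝ) ≤ a₀ := by linarith
          nlinarith
        calc (9 : ℝ) ^ r * (9 ^ r * (1 / cd) * (2 * (r : ℝ) + 1) ^ r)
            = 81 ^ r * ((1 / cd) * (2 * (r : ℝ) + 1) ^ r) := by
              rw [← mul_assoc, ← mul_assoc, ← mul_pow]; norm_num; ring
          _ ≤ (a₀ * (r + 2)) ^ r * ((a₀ * (r + 2)) * (a₀ * (r + 2)) ^ r) := by gcongr
          _ = (a₀ * (r + 2)) ^ (2 * r + 1) := by ring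
          _ = (a₀ * (r + 2)) ^ ((2 * r + 1 : ℕ) : ℝ) := (Real.rpow_natCast _ _).symm
          _ ≤ (a₀ * (r + 2)) ^ (4 * ((r : ℝ) + 1) ^ 2) := by
            apply Real.rpow_le_rpow_of_exponent_le hY1
            push_cast
            nlinarith
      calc 9 ^ r * (A₀ * (r + 2)) ^ (A₀ * ((r : ℝ) + 1) ^ 2) *
          (9 ^ r * (1 / cd) * (2 * (r : ℝ) + 1) ^ r)
          = (A₀ * (r + 2)) ^ (A₀ * ((r : ℝ) + 1) ^ 2) *
            (9 ^ r * (9 ^ r * (1 / cd) * (2 * (r : ℝ) + 1) ^ r)) := by ring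
        _ ≤ (a₀ * (r + 2)) ^ (A₀ * ((r : ℝ) + 1) ^ 2) *
            (a₀ * (r + 2)) ^ (4 * ((r : ℝ) + 1) ^ 2) := by gcongr
        _ = (a₀ * (r + 2)) ^ ((A₀ + 4) * ((r : ℝ) + 1) ^ 2) := by
            rw [← Real.rpow_add (by positivity)]; congr 1; ring
        _ ≤ _ := by
            apply Real.rpow_le_rpow_of_exponent_le hY1
            apply mul_le_mul_of_nonneg_right _ (by positivity)
            linarith
    have hlamp : 0 ≤ lam ^ (-(1 / (d : ℝ))) := by positivity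
    calc 9 ^ r * (A₀ * (r + 2)) ^ (A₀ * ((r : ℝ) + 1) ^ 2) * N ^ ε *
          (Z ^ (1 / ((2 * d : ℕ) : ℝ)) * lam ^ (-(1 / (d : ℝ))))
        ≤ 9 ^ r * (A₀ * (r + 2)) ^ (A₀ * ((r : ℝ) + 1) ^ 2) * N ^ ε *
          (Z * lam ^ (-(1 / (d : ℝ)))) := by gcongr
      _ = (9 ^ r * (A₀ * (r + 2)) ^ (A₀ * ((r : ℝ) + 1) ^ 2) *
          (9 ^ r * (1 / cd) * (2 * (r : ℝ) + 1) ^ r)) * (B * (E₀ + 1) ^ 2) ^ r * N ^ ε *
            lam ^ (-(1 / (d : ℝ))) := by rw [hZe]; ring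
      _ ≤ _ := by gcongr

end Pool.Agent.MPac5134.Lat
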