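import Pool.Agent.Lib.MP_ac5134_an.KM.Defs

/-!
# integer points in a parallelepiped
-/

set_option autoImplicit false

namespace Pool.Agent.MPac5134.Lat

open Matrix Polynomial

private theorem inj_of_det {ι : Type*} [Fintype ι] [DecidableEq ι] (M : Matrix ι ι ℤ) (hM : M.det ≠ 0) :
    Function.Injective (Matrix.toLin' M) := by
  intro x y hxy
  have h : M *ᵥ (x - y) = 0 := by
    rw [Matrix.mulVec_sub, sub_eq_zero]
    simpa using hxy
  have := Matrix.eq_zero_of_mulVec_eq_zero hM h
  exact sub_eq_zero.mp this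

private theorem card_quot {ι : Type*} [Fintype ι] [DecidableEq ι] (M : Matrix ι ι ℤ) (hM : M.det ≠ 0) :
    Nat.card ((ι → ℤ) ⧸ LinearMap.range (Matrix.toLin' M)) = M.det.natAbs := by
  have h := Submodule.natAbs_det_equiv (LinearMap.range (Matrix.toLin' M))
    (LinearEquiv.ofInjective (Matrix.toLin' M) (inj_of_det M hM))
  rw [← h, ← LinearMap.det_toLin' M]
  congr 2

/-- integer points in a parallelepiped -/
theorem card_parallelepiped {ι : Type*} [Fintype ι] [DecidableEq ι] (M : Matrix ι ι ℤ) (hM : M.det ≠ 0)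
    (T : Finset (ι → ℤ)) (hT : ∀ x ∈ T, ∃ c : ι → ℝ, (∀ i, |c i| ≤ 1) ∧ ∀ i, (x i : ℝ) = ∑ k, (M i k : ℝ) * c k) :
    (T.card : ℝ) ≤ 3 ^ Fintype.card ι * |(M.det : ℝ)| := by
  classical
  have hcard := card_quot M hM
  have hpos : 0 < Nat.card ((ι → ℤ) ⧸ LinearMap.range (Matrix.toLin' M)) := by
    rw [hcard]; exact Int.natAbs_pos.mpr hM
  have : Finite ((ι → ℤ) ⧸ LinearMap.range (Matrix.toLin' M)) := Nat.finite_of_card_ne_zero hpos.ne'
  have : Fintype ((ι → ℤ) ⧸ LinearMap.range (Matrix.toLin' M)) := Fintype.ofFinite _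
  choose! c hc1 hc2 using hT
  have hfl : ∀ x ∈ T, ∀ i, ⌊c x i⌋ ∈ Finset.Icc (-1 : ℤ) 1 := by
    intro x hx i
    have h := abs_le.mp (hc1 x hx i)
    rw [Finset.mem_Icc]
    constructor
    · rw [Int.le_floor]; push_cast; linarith
    · have h1 : ⌊c x i⌋ ≤ ⌊(1 : ℝ)⌋ := Int.floor_le_floor h.2
      simpa using h1
  -- the real matrix is injective
  have hinj : ∀ v : ι → ℝ, (∀ i, ∑ k, (M i k : ℝ) * v k = 0) → v = 0 := by
    intro v hv
    have hdet : (M.map (Int.cast : ℤ → ℝ)).det ≠ 0 := by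
      have : (M.map (Int.cast : ℤ → ℝ)).det = (M.det : ℝ) := by
        have := (Int.castRingHom ℝ).map_det M
        simpa [RingHom.mapMatrix_apply] using this.symm
      rw [this]; exact_mod_cast hM
    apply Matrix.eq_zero_of_mulVec_eq_zero hdet
    funext i
    have := hv i
    simpa [Matrix.mulVec, dotProduct] using this
  let F : (ι → ℤ) → ((ι → ℤ) ⧸ LinearMap.range (Matrix.toLin' M)) × (ι → ℤ) :=
    fun x => (Submodule.Quotient.mk x, fun i => ⌊c x i⌋)
  have hmaps : ∀ x ∈ T, F x ∈ (Finset.univ : Finset ((ι → ℤ) ⧸ LinearMap.range (Matrix.toLin' M))) ×ˢ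
      Fintype.piFinset (fun _ : ι => Finset.Icc (-1 : ℤ) 1) := by
    intro x hx
    rw [Finset.mem_product]
    refine ⟨Finset.mem_univ _, ?_⟩
    rw [Fintype.mem_piFinset]
    exact fun i => hfl x hx i
  have hinjF : Set.InjOn F (T : Set (ι → ℤ)) := by
    intro x hx y hy hxy
    have hx' : x ∈ T := hx
    have hy' : y ∈ T := hy
    have h1 : (Submodule.Quotient.mk x : (ι → ℤ) ⧸ LinearMap.range (Matrix.toLin' M)) =
        Submodule.Quotient.mk y := congrArg Prod.fst hxy
    have h2 : (fun i => ⌊c x i⌋) = fun i => ⌊c y i⌋ := congrArg Prod.snd hxy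
    rw [Submodule.Quotient.eq] at h1
    obtain ⟨z, hz⟩ := h1
    have hz' : ∀ i, (x i - y i : ℝ) = ∑ k, (M i k : ℝ) * (z k : ℝ) := by
      intro i
      have := congrFun hz i
      simp only [Matrix.toLin'_apply, Matrix.mulVec, dotProduct, Pi.sub_apply] at this
      exact_mod_cast this.symm
    have hv : (fun k => c x k - c y k - (z k : ℝ)) = 0 := by
      apply hinj
      intro i
      have e1 := hc2 x hx' i
      have e2 := hc2 y hy' i
      have e3 := hz' i
      have : ∑ k, (M i k : ℝ) * (c x k - c y k - (z k : ℝ)) =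
          ∑ k, (M i k : ℝ) * c x k - ∑ k, (M i k : ℝ) * c y k - ∑ k, (M i k : ℝ) * (z k : ℝ) := by
        rw [← Finset.sum_sub_distrib, ← Finset.sum_sub_distrib]
        refine Finset.sum_congr rfl fun k _ => by ring
      rw [this, ← e1, ← e2, ← e3]
      ring
    have hz0 : ∀ k, z k = 0 := by
      intro k
      have h3 := congrFun hv k
      simp only [Pi.zero_apply] at h3
      have h4 : ⌊c x k⌋ = ⌊c y k⌋ := congrFun h2 k
      have h5 : c x k = c y k + (z k : ℝ) := by linarith
      rw [h5, Int.floor_add_intCast] at h4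
      omega
    have hz00 : z = 0 := funext hz0
    rw [hz00, map_zero] at hz
    exact (sub_eq_zero.mp hz.symm)
  have hle := Finset.card_le_card_of_injOn F hmaps hinjF
  rw [Finset.card_product, Fintype.card_piFinset, Finset.card_univ] at hle
  have hI : (Finset.Icc (-1 : ℤ) 1).card = 3 := by decide
  rw [Finset.prod_const, hI, Finset.card_univ, ← Nat.card_eq_fintype_card, hcard] at hle
  calc (T.card : ℝ) ≤ ((M.det.natAbs * 3 ^ Fintype.card ι : ℕ) : ℝ) := by exact_mod_cast hle
    _ = 3 ^ Fintype.card ι * |(M.det : ℝ)| := by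
        push_cast
        rw [Nat.cast_natAbs]
        push_cast
        ring

end Pool.Agent.MPac5134.Lat
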