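import Pool.Agent.Lib.MP_ac5134_an.KM.Defs

/-!
# Gram determinants: independence of the basis, positivity
-/

set_option autoImplicit false

namespace Pool.Agent.MPac5134.Lat

open Matrix Polynomial

/-- the matrix with columns `v i` -/
private def covA_V {r : ℕ} {ι : Type*} (v : ι → Fin r → ℤ) : Matrix (Fin r) ι ℝ :=
  Matrix.of fun k i => (v i k : ℝ)

private theorem covA_gram_eq {r : ℕ} {ι : Type*} [Fintype ι] (G : Matrix (Fin r) (Fin r) ℝ)
    (v : ι → Fin r → ℤ) : gram G v = (covA_V v)ᵀ * (G * covA_V v) := by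
  ext i j
  rfl

/-- the Gram matrix of integer combinations -/
theorem gram_comb {r : ℕ} {ι κ : Type*} [Fintype ι] [Fintype κ] (G : Matrix (Fin r) (Fin r) ℝ)
    (v : ι → Fin r → ℤ) (w : κ → Fin r → ℤ) (M : Matrix κ ι ℤ)
    (h : ∀ i, v i = ∑ k, M k i • w k) :
    gram G v = (M.map (Int.cast : ℤ → ℝ))ᵀ * (gram G w * M.map (Int.cast : ℤ → ℝ)) := by
  have h1 : covA_V v = covA_V w * M.map (Int.cast : ℤ → ℝ) := by
    ext l i
    simp only [covA_V, Matrix.of_apply, Matrix.mul_apply, Matrix.map_apply]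
    rw [h i, Finset.sum_apply]
    push_cast
    refine Finset.sum_congr rfl fun k _ => ?_
    simp [mul_comm]
  rw [covA_gram_eq, covA_gram_eq, h1, Matrix.transpose_mul]
  simp only [Matrix.mul_assoc]

theorem gram_comb_det {r : ℕ} {ι : Type*} [Fintype ι] [DecidableEq ι] (G : Matrix (Fin r) (Fin r) ℝ)
    (v : ι → Fin r → ℤ) (w : ι → Fin r → ℤ) (M : Matrix ι ι ℤ)
    (h : ∀ i, v i = ∑ k, M k i • w k) :
    (gram G v).det = (M.det : ℝ) ^ 2 * (gram G w).det := by
  have h0 : (M.map (Int.cast : ℤ → ℝ)).det = (M.det : ℝ) := (Int.cast_det M).symm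
  rw [gram_comb G v w M h, Matrix.det_mul, Matrix.det_mul, Matrix.det_transpose, h0]
  ring

/-- two bases with the same index type have the same Gram determinant -/
theorem gram_det_basis {r : ℕ} (G : Matrix (Fin r) (Fin r) ℝ) (Λ : Submodule ℤ (Fin r → ℤ)) {ι : Type*}
    [Fintype ι] [DecidableEq ι] (b c : Module.Basis ι ℤ Λ) :
    (gram G (fun i => ((b i : Λ) : Fin r → ℤ))).det = (gram G (fun i => ((c i : Λ) : Fin r → ℤ))).det := by
  have h1 : ∀ i, ((b i : Λ) : Fin r → ℤ) = ∑ k, (c.toMatrix b) k i • ((c k : Λ) : Fin r → ℤ) := by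
    intro i
    have h2 := c.sum_toMatrix_smul_self b i
    have h3 := congrArg (fun z : Λ => (z : Fin r → ℤ)) h2
    simp only [Submodule.coe_sum, Submodule.coe_smul] at h3
    exact h3.symm
  rw [gram_comb_det G _ (fun i => ((c i : Λ) : Fin r → ℤ)) (c.toMatrix b) h1]
  have h4 : (c.toMatrix b).det * (b.toMatrix c).det = 1 := by
    rw [← Matrix.det_mul, Module.Basis.toMatrix_mul_toMatrix_flip, Matrix.det_one]
  have h5 : IsUnit (c.toMatrix b).det := IsUnit.of_mul_eq_one _ h4
  have h6 : (c.toMatrix b).det ^ 2 = 1 := by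
    rcases Int.isUnit_iff.mp h5 with h | h <;> rw [h] <;> norm_num
  have h7 : ((c.toMatrix b).det : ℝ) ^ 2 = 1 := by exact_mod_cast h6
  rw [h7, one_mul]

/-- the Gram determinant does not depend on the basis -/
theorem cov_eq {r : ℕ} (G : Matrix (Fin r) (Fin r) ℝ) (Λ : Submodule ℤ (Fin r → ℤ)) {ι : Type*} [Fintype ι]
    [DecidableEq ι] (b : Module.Basis ι ℤ Λ) : cov G Λ = (gram G (fun i => ((b i : Λ) : Fin r → ℤ))).det := by
  classical
  have e := b.indexEquiv (Module.finBasis ℤ Λ)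
  unfold cov
  rw [gram_det_basis G Λ (Module.finBasis ℤ Λ) (b.reindex e)]
  have h1 : gram G (fun i => ((b.reindex e i : Λ) : Fin r → ℤ)) =
      (gram G (fun i => ((b i : Λ) : Fin r → ℤ))).submatrix e.symm e.symm := by
    ext i j
    simp [gram]
  rw [h1, Matrix.det_submatrix_equiv_self]

/-- integer vectors which are independent over `ℤ` are the columns of an injective real matrix -/
theorem covA_inj {r : ℕ} {ι : Type*} [Fintype ι] {v : ι → Fin r → ℤ} (hv : LinearIndependent ℤ v)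
    (x : ι → ℝ) (hx : covA_V v *ᵥ x = 0) : x = 0 := by
  classical
  obtain ⟨W, hW⟩ : ∃ W : Matrix (Fin r) ι ℤ, W = Matrix.of fun k i => v i k := ⟨_, rfl⟩
  have hdet : (Wᵀ * W).det ≠ 0 := by
    intro h0
    obtain ⟨y, hy0, hy⟩ := Matrix.exists_mulVec_eq_zero_iff.mpr h0
    have h1 : (W *ᵥ y) ⬝ᵥ (W *ᵥ y) = 0 := by
      have h2 : y ⬝ᵥ ((Wᵀ * W) *ᵥ y) = 0 := by rw [hy, dotProduct_zero]
      rw [← Matrix.mulVec_mulVec, Matrix.dotProduct_mulVec, Matrix.vecMul_transpose] at h2
      exact h2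
    have h3 : W *ᵥ y = 0 := dotProduct_self_eq_zero.mp h1
    apply hy0
    have h4 : ∑ i, y i • v i = 0 := by
      funext k
      have h5 := congrFun h3 k
      simp only [Matrix.mulVec, dotProduct, hW, Matrix.of_apply, Pi.zero_apply] at h5
      simp only [Finset.sum_apply, Pi.smul_apply, smul_eq_mul, Pi.zero_apply]
      rw [← h5]
      exact Finset.sum_congr rfl fun i _ => mul_comm _ _
    funext i
    exact Fintype.linearIndependent_iff.mp hv y h4 i
  have hV : covA_V v = W.map (Int.cast : ℤ → ℝ) := by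
    rw [hW]; rfl
  have h6 : ((covA_V v)ᵀ * covA_V v).det ≠ 0 := by
    have h7 : (covA_V v)ᵀ * covA_V v = (Wᵀ * W).map (Int.cast : ℤ → ℝ) := by
      rw [hV]
      ext i j
      simp [Matrix.mul_apply]
    rw [h7]
    have h8 : ((Wᵀ * W).map (Int.cast : ℤ → ℝ)).det = (((Wᵀ * W).det : ℤ) : ℝ) := (Int.cast_det _).symm
    rw [h8]
    exact_mod_cast hdet
  apply Matrix.eq_zero_of_mulVec_eq_zero h6
  rw [← Matrix.mulVec_mulVec, hx, Matrix.mulVec_zero]

/-- the Gram matrix of linearly independent vectors is positive definite -/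
theorem gram_posDef {r : ℕ} {G : Matrix (Fin r) (Fin r) ℝ} (hG : G.PosDef) {ι : Type*} [Fintype ι]
    {v : ι → Fin r → ℤ} (hv : LinearIndependent ℤ v) : (gram G v).PosDef := by
  classical
  have h1 : Function.Injective (covA_V v).mulVec := by
    intro x y hxy
    have h2 : covA_V v *ᵥ (x - y) = 0 := by
      rw [Matrix.mulVec_sub]
      exact sub_eq_zero.mpr hxy
    exact sub_eq_zero.mp (covA_inj hv _ h2)
  have h3 := hG.conjTranspose_mul_mul_same h1
  rw [covA_gram_eq, ← Matrix.mul_assoc]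
  rwa [Matrix.conjTranspose_eq_transpose_of_trivial] at h3

theorem cov_pos {r : ℕ} {G : Matrix (Fin r) (Fin r) ℝ} (hG : G.PosDef) (Λ : Submodule ℤ (Fin r → ℤ)) :
    0 < cov G Λ := by
  unfold cov
  refine (gram_posDef hG ?_).det_pos
  exact (Module.finBasis ℤ Λ).linearIndependent.map' Λ.subtype Λ.ker_subtype

end Pool.Agent.MPac5134.Lat
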