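import Pool.Agent.Lib.MP_ac5134_an.KM.Defs

/-!
# Hermite's inequality
-/

set_option autoImplicit false

namespace Pool.Agent.MPac5134.Lat

open Matrix Polynomial

open scoped MatrixOrder in
private theorem herm_factor {ι : Type*} [Fintype ι] [DecidableEq ι] {A : Matrix ι ι ℝ}
    (hA : A.PosDef) : ∃ C : Matrix ι ι ℝ, A = Cᵀ * C ∧ C.det ≠ 0 := by
  obtain ⟨C, hC⟩ := CStarAlgebra.nonneg_iff_eq_star_mul_self.mp hA.posSemidef.nonneg
  rw [star_eq_conjTranspose, conjTranspose_eq_transpose_of_trivial] at hC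
  refine ⟨C, hC, ?_⟩
  intro h0
  have h1 := hA.det_pos
  rw [hC, det_mul, h0, mul_zero] at h1
  exact lt_irrefl _ h1

/-- Minkowski's theorem for a parallelepiped -/
private theorem herm_minkowski {j : ℕ} (C : Matrix (Fin j) (Fin j) ℝ) (hC : C.det ≠ 0) (r : ℝ)
    (hr : 0 ≤ r) (h : |C.det| < r ^ j) :
    ∃ v : Fin j → ℤ, v ≠ 0 ∧ ∀ i, |(C *ᵥ rv v) i| ≤ r := by
  classical
  let b := Pi.basisFun ℝ (Fin j)
  have fund := ZSpan.isAddFundamentalDomain' b (MeasureTheory.volume : MeasureTheory.Measure (Fin j → ℝ))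
  let f : (Fin j → ℝ) →ₗ[ℝ] (Fin j → ℝ) := Matrix.toLin' C
  have hdet : LinearMap.det f = C.det := LinearMap.det_toLin' C
  set s : Set (Fin j → ℝ) := f ⁻¹' Metric.closedBall 0 r with hs
  have hvol : MeasureTheory.volume s =
      ENNReal.ofReal |C.det⁻¹| * ENNReal.ofReal ((2 * r) ^ j) := by
    rw [hs, MeasureTheory.Measure.addHaar_preimage_linearMap _ (by rw [hdet]; exact hC), hdet,
      Real.volume_pi_closedBall _ hr, Fintype.card_fin]
  have hsymm : ∀ x ∈ s, -x ∈ s := by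
    intro x hx
    rw [hs, Set.mem_preimage, Metric.mem_closedBall, dist_zero_right] at hx ⊢
    rwa [map_neg, norm_neg]
  have hconv : Convex ℝ s := (convex_closedBall (0 : Fin j → ℝ) r).linear_preimage f
  have hF : MeasureTheory.volume (ZSpan.fundamentalDomain b) = 1 := by
    rw [ZSpan.fundamentalDomain_pi_basisFun, MeasureTheory.volume_pi_pi]
    simp
  have hlt : MeasureTheory.volume (ZSpan.fundamentalDomain b) * 2 ^ Module.finrank ℝ (Fin j → ℝ) <
      MeasureTheory.volume s := by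
    rw [hF, one_mul, hvol, ← ENNReal.ofReal_mul (abs_nonneg _), Module.finrank_fin_fun]
    have h1 : (2 : ENNReal) ^ j = ENNReal.ofReal (2 ^ j) := by
      rw [ENNReal.ofReal_pow (by norm_num)]
      norm_num
    rw [h1]
    have h2 : 0 < |C.det| := abs_pos.mpr hC
    have h3 : (2 : ℝ) ^ j < |C.det⁻¹| * (2 * r) ^ j := by
      rw [abs_inv, mul_pow, inv_mul_eq_div, lt_div_iff₀ h2]
      exact mul_lt_mul_of_pos_left h (by positivity)
    exact (ENNReal.ofReal_lt_ofReal_iff (lt_trans (by positivity) h3)).mpr h3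
  have hcount : Countable (Submodule.span ℤ (Set.range b)).toAddSubgroup :=
    inferInstanceAs (Countable (Submodule.span ℤ (Set.range b)))
  obtain ⟨x, hx0, hx⟩ := MeasureTheory.exists_ne_zero_mem_lattice_of_measure_mul_two_pow_lt_measure
    fund hsymm hconv hlt
  have hmem : (x : Fin j → ℝ) ∈ Submodule.span ℤ (Set.range b) := x.2
  rw [Module.Basis.mem_span_iff_repr_mem] at hmem
  choose v hv using hmem
  have hxv : (x : Fin j → ℝ) = rv v := by
    ext i
    have := hv i
    simp only [b, Pi.basisFun_repr] at this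
    rw [← this]
    simp [rv]
  refine ⟨v, ?_, ?_⟩
  · intro h0
    apply hx0
    apply Subtype.ext
    rw [hxv, h0]
    ext i
    simp [rv]
  · intro i
    have h1 := hx
    rw [hs, Set.mem_preimage, Metric.mem_closedBall, dist_zero_right, hxv] at h1
    have h2 := norm_le_pi_norm (f (rv v)) i
    rw [Real.norm_eq_abs] at h2
    exact h2.trans h1

/-- Hermite: if the values at the nonzero integer vectors are at least `m`, then `det G ≥ c m^j`,
with `c = (2 j + 1)^(-j)` -/
theorem hermite_explicit (j : ℕ) (G : Matrix (Fin j) (Fin j) ℝ) (hG : G.PosDef)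
    (m : ℝ) (hm : 0 < m) (hv : ∀ v : Fin j → ℤ, v ≠ 0 → m ≤ qf G v) :
    (1 / (2 * (j : ℝ) + 1)) ^ j * m ^ j ≤ G.det := by
  obtain ⟨C, hC, hC0⟩ := herm_factor hG
  by_contra hcon
  push Not at hcon
  set q : ℝ := m / (2 * (j : ℝ) + 1) with hq
  have hq0 : 0 < q := by positivity
  have e1 : (1 / (2 * (j : ℝ) + 1)) ^ j * m ^ j = q ^ j := by
    rw [← mul_pow, hq]
    congr 1
    ring
  rw [e1] at hcon
  have hdet : G.det = C.det ^ 2 := by
    rw [hC, det_mul, det_transpose, pow_two]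
  have h1 : |C.det| < Real.sqrt q ^ j := by
    apply lt_of_pow_lt_pow_left₀ 2 (by positivity)
    rw [sq_abs, ← hdet, ← pow_mul, mul_comm j 2, pow_mul, Real.sq_sqrt hq0.le]
    exact hcon
  obtain ⟨v, hv0, hvr⟩ := herm_minkowski C hC0 (Real.sqrt q) (Real.sqrt_nonneg _) h1
  have h2 := hv v hv0
  rw [hC, qf_transpose_mul] at h2
  have h3 : ∑ i, (C *ᵥ rv v) i ^ 2 ≤ ∑ _i : Fin j, q := by
    refine Finset.sum_le_sum fun i _ => ?_
    rw [← sq_abs]
    calc |(C *ᵥ rv v) i| ^ 2 ≤ Real.sqrt q ^ 2 := by gcongr; exact hvr i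
      _ = q := Real.sq_sqrt hq0.le
  rw [Finset.sum_const, Finset.card_univ, Fintype.card_fin, nsmul_eq_mul] at h3
  have h4 : (2 * (j : ℝ) + 1) * q = m := by
    rw [hq]
    field_simp
  nlinarith [Nat.cast_nonneg (α := ℝ) j]

end Pool.Agent.MPac5134.Lat
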