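import Pool.Agent.Lib.MP_ac5134_an.KM.CovA
import Pool.Agent.Lib.MP_ac5134_an.KM.Psd
import Pool.Agent.Lib.MP_ac5134_an.KM.Herm

/-!
# Gram determinants: comparison of forms, lower bound
-/

set_option autoImplicit false

namespace Pool.Agent.MPac5134.Lat

open Matrix Polynomial

/-- the value of the Gram form at a real vector is the value of `G` at the combination -/
private theorem covLe_val {r : ℕ} {ι : Type*} [Fintype ι] (G : Matrix (Fin r) (Fin r) ℝ)
    (v : ι → Fin r → ℤ) (y : ι → ℝ) :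
    y ⬝ᵥ (gram G v *ᵥ y) = (∑ i, y i • rv (v i)) ⬝ᵥ (G *ᵥ (∑ i, y i • rv (v i))) := by
  simp only [Matrix.mulVec_sum, Matrix.mulVec_smul, dotProduct_sum, sum_dotProduct, smul_dotProduct,
    dotProduct_smul, smul_eq_mul]
  simp only [dotProduct, Matrix.mulVec, gram, Matrix.of_apply, Finset.mul_sum]
  rw [Finset.sum_comm]
  refine Finset.sum_congr rfl fun i _ => Finset.sum_congr rfl fun j _ => ?_
  simp only [Finset.sum_mul, Finset.mul_sum]
  refine Finset.sum_congr rfl fun k _ => Finset.sum_congr rfl fun l _ => ?_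
  ring

private theorem covLe_finrank {r : ℕ} (Λ : Submodule ℤ (Fin r → ℤ)) : Module.finrank ℤ Λ ≤ r := by
  have h := Submodule.finrank_le Λ
  simpa using h

/-- comparison of the Gram determinants for two forms -/
theorem cov_le_of_le {r : ℕ} {G G' : Matrix (Fin r) (Fin r) ℝ} (hG : G.PosDef) (hG' : G'.PosDef) {c : ℝ}
    (hc : 1 ≤ c) (h : ∀ x : Fin r → ℝ, x ⬝ᵥ (G' *ᵥ x) ≤ c * (x ⬝ᵥ (G *ᵥ x))) (Λ : Submodule ℤ (Fin r → ℤ)) :
    cov G' Λ ≤ c ^ r * cov G Λ := by
  classical
  obtain ⟨b, hb⟩ : ∃ b : Fin (Module.finrank ℤ Λ) → Fin r → ℤ,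
      b = fun i => ((Module.finBasis ℤ Λ i : Λ) : Fin r → ℤ) := ⟨_, rfl⟩
  have hlin : LinearIndependent ℤ b := by
    rw [hb]
    exact (Module.finBasis ℤ Λ).linearIndependent.map' Λ.subtype Λ.ker_subtype
  have h1 : (gram G' b).PosDef := gram_posDef hG' hlin
  have h2 : (gram G b).PosDef := gram_posDef hG hlin
  have h3 : (c • gram G b - gram G' b).PosSemidef := by
    refine Matrix.PosSemidef.of_dotProduct_mulVec_nonneg ?_ ?_
    · have h4 : (c • gram G b).IsHermitian := by
        have := h2.isHermitian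
        unfold Matrix.IsHermitian at this ⊢
        rw [Matrix.conjTranspose_smul, this]
        simp
      exact h4.sub h1.isHermitian
    · intro y
      have h5 : star y = y := by ext i; simp
      rw [h5, Matrix.sub_mulVec, dotProduct_sub, Matrix.smul_mulVec, dotProduct_smul, smul_eq_mul,
        covLe_val, covLe_val]
      linarith [h (∑ i, y i • rv (b i))]
  have h6 := det_le_det h1 h3
  rw [Matrix.det_smul, Fintype.card_fin] at h6
  have h7 : cov G Λ = (gram G b).det := by rw [hb]; rfl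
  have h8 : cov G' Λ = (gram G' b).det := by rw [hb]; rfl
  rw [h7, h8]
  refine h6.trans ?_
  have h9 : c ^ (Module.finrank ℤ Λ) ≤ c ^ r := pow_le_pow_right₀ hc (covLe_finrank Λ)
  exact mul_le_mul_of_nonneg_right h9 h2.det_pos.le

/-- Hermite's inequality for all subgroups -/
theorem cov_lower {r : ℕ} {G : Matrix (Fin r) (Fin r) ℝ} (hG : G.PosDef) {m : ℝ} (hm : 0 < m)
    (hm1 : m ≤ 1) (hval : ∀ v : Fin r → ℤ, v ≠ 0 → m ≤ qf G v) (Λ : Submodule ℤ (Fin r → ℤ)) :
    (1 / (2 * (r : ℝ) + 1)) ^ r * m ^ r ≤ cov G Λ := by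
  classical
  obtain ⟨b, hb⟩ : ∃ b : Fin (Module.finrank ℤ Λ) → Fin r → ℤ,
      b = fun i => ((Module.finBasis ℤ Λ i : Λ) : Fin r → ℤ) := ⟨_, rfl⟩
  have hlin : LinearIndependent ℤ b := by
    rw [hb]
    exact (Module.finBasis ℤ Λ).linearIndependent.map' Λ.subtype Λ.ker_subtype
  have h2 : (gram G b).PosDef := gram_posDef hG hlin
  have h7 : cov G Λ = (gram G b).det := by rw [hb]; rfl
  rw [h7]
  have hj : Module.finrank ℤ Λ ≤ r := covLe_finrank Λ
  have h8 := hermite_explicit (Module.finrank ℤ Λ) (gram G b) h2 m hm (by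
    intro y hy
    have h9 : qf (gram G b) y = qf G (∑ i, y i • b i) := by
      unfold qf
      rw [covLe_val]
      have h10 : ∑ i, rv y i • rv (b i) = rv (∑ i, y i • b i) := by
        funext k
        simp [rv, Finset.sum_apply]
      rw [h10]
    rw [h9]
    apply hval
    intro h0
    apply hy
    funext i
    exact Fintype.linearIndependent_iff.mp hlin y h0 i)
  refine le_trans ?_ h8
  have h11 : m ^ r ≤ m ^ (Module.finrank ℤ Λ) := pow_le_pow_of_le_one hm.le hm1 hj
  have hjr : ((Module.finrank ℤ Λ : ℕ) : ℝ) ≤ r := by exact_mod_cast hj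
  have hr0 : (0 : ℝ) ≤ r := Nat.cast_nonneg r
  have h12 : (1 / (2 * (r : ℝ) + 1)) ^ r ≤ (1 / (2 * (r : ℝ) + 1)) ^ (Module.finrank ℤ Λ) :=
    pow_le_pow_of_le_one (by positivity) (by rw [div_le_one (by positivity)]; linarith) hj
  have h13 : (1 / (2 * (r : ℝ) + 1)) ^ (Module.finrank ℤ Λ) ≤
      (1 / (2 * ((Module.finrank ℤ Λ : ℕ) : ℝ) + 1)) ^ (Module.finrank ℤ Λ) := by
    apply pow_le_pow_left₀ (by positivity)
    apply one_div_le_one_div_of_le (by positivity)
    linarith
  exact mul_le_mul (h12.trans h13) h11 (by positivity) (by positivity)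

end Pool.Agent.MPac5134.Lat
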