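import Pool.Agent.Lib.MP_ac5134_an.LatDefs

/-!
# Gram determinants of subgroups of `Z^r`

`gram G v` is the Gram matrix of a family of integer vectors with respect to the real quadratic form `G`,
`cov G Λ` the Gram determinant (square of the covolume) of a subgroup `Λ` of `Z^r`, `lat U` the group of the
integer points of a rational subspace `U`.
-/

set_option autoImplicit false

namespace Pool.Agent.MPac5134.Lat

open Matrix

/-- Gram matrix of a family of integer vectors with respect to `G` -/
def gram {r : ℕ} {ι : Type*} (G : Matrix (Fin r) (Fin r) ℝ) (v : ι → Fin r → ℤ) : Matrix ι ι ℝ :=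
  Matrix.of fun i j => rv (v i) ⬝ᵥ (G *ᵥ rv (v j))

/-- Gram determinant of a subgroup of `Z^r` (square of the covolume) -/
noncomputable def cov {r : ℕ} (G : Matrix (Fin r) (Fin r) ℝ) (Λ : Submodule ℤ (Fin r → ℤ)) : ℝ :=
  (gram G (fun i => ((Module.finBasis ℤ Λ i : Λ) : Fin r → ℤ))).det

/-- the inclusion of `Z^r` in `Q^r` -/
def castL (r : ℕ) : (Fin r → ℤ) →ₗ[ℤ] (Fin r → ℚ) where
  toFun v := fun k => (v k : ℚ)
  map_add' v w := by ext k; simp
  map_smul' c v := by ext k; simp

/-- the integer points of a rational subspace -/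
def lat {r : ℕ} (U : Submodule ℚ (Fin r → ℚ)) : Submodule ℤ (Fin r → ℤ) :=
  (U.restrictScalars ℤ).comap (castL r)

end Pool.Agent.MPac5134.Lat
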