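import Pool.Agent.Lib.MP_ac5134_an.KM.Defs

/-!
# a polynomial with large leading coefficient; sum of principal minors
-/

set_option autoImplicit false

namespace Pool.Agent.MPac5134.Lat

open Matrix Polynomial

private theorem sup1_diff (p : ℝ[X]) (a h : ℝ) (hh : h ≠ 0) :
    ∑ j ∈ Finset.range (p.natDegree + 1),
      ((-1 : ℤ) ^ (p.natDegree - j) * (p.natDegree.choose j : ℤ)) • p.eval (a + j * h) =
    p.leadingCoeff * h ^ p.natDegree * (p.natDegree.factorial : ℝ) := by
  set q : ℝ[X] := p.comp (C h * X + C a) with hq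
  have hd : (C h * X + C a : ℝ[X]).natDegree = 1 := natDegree_linear hh
  have hqd : q.natDegree = p.natDegree := by rw [hq, natDegree_comp, hd, mul_one]
  have hl : (C h * X + C a : ℝ[X]).leadingCoeff = h := leadingCoeff_linear hh
  have hql : q.leadingCoeff = p.leadingCoeff * h ^ p.natDegree := by
    rw [hq, leadingCoeff_comp (by rw [hd]; exact one_ne_zero), hl]
  have h1 := congrFun (Polynomial.fwdDiff_iter_degree_eq_factorial q) 0
  rw [fwdDiff_iter_eq_sum_shift, hqd, hql] at h1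
  simp only [Pi.smul_apply, smul_eq_mul, Pi.natCast_apply] at h1
  rw [← h1]
  refine Finset.sum_congr rfl fun j _ => ?_
  congr 1
  rw [hq, eval_comp]
  congr 1
  simp only [eval_add, eval_mul, eval_C, eval_X, nsmul_eq_mul, mul_one, zero_add]
  ring

/-- a monic polynomial of degree `k ≤ D` is somewhere on `[a,a+1]` not small -/
theorem monic_large (D : ℕ) : ∃ c : ℝ, 0 < c ∧ ∀ (p : ℝ[X]), p.natDegree ≤ D → ∀ a : ℝ,
    ∃ s ∈ Set.Icc a (a + 1), c * |p.leadingCoeff| ≤ |p.eval s| := by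
  refine ⟨1 / (((D : ℝ) + 1) ^ D * 2 ^ D), by positivity, fun p hp a => ?_⟩
  set c : ℝ := 1 / (((D : ℝ) + 1) ^ D * 2 ^ D) with hc
  by_contra hcon
  push Not at hcon
  set k := p.natDegree with hk
  set h : ℝ := 1 / ((k : ℝ) + 1) with hh
  have hk0 : (0 : ℝ) < (k : ℝ) + 1 := by positivity
  have hh0 : 0 < h := by positivity
  have hsmall : ∀ j ∈ Finset.range (k + 1), |p.eval (a + j * h)| < c * |p.leadingCoeff| := by
    intro j hj
    apply hcon
    have hjk : (j : ℝ) ≤ k := by exact_mod_cast Nat.lt_succ_iff.mp (Finset.mem_range.mp hj)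
    have hj0 : (0 : ℝ) ≤ (j : ℝ) * h := by positivity
    have hj1 : (j : ℝ) * h ≤ 1 := by
      rw [hh, mul_one_div, div_le_one hk0]
      linarith
    exact ⟨by linarith, by linarith⟩
  have hdiff := sup1_diff p a h hh0.ne'
  rw [← hk] at hdiff
  have h1 : |p.leadingCoeff| * h ^ k * (k.factorial : ℝ) <
      ∑ j ∈ Finset.range (k + 1), (k.choose j : ℝ) * (c * |p.leadingCoeff|) := by
    have h2 : |p.leadingCoeff| * h ^ k * (k.factorial : ℝ) =
        |p.leadingCoeff * h ^ k * (k.factorial : ℝ)| := by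
      rw [abs_mul, abs_mul, abs_of_nonneg (by positivity : (0 : ℝ) ≤ h ^ k),
        abs_of_nonneg (by positivity : (0 : ℝ) ≤ (k.factorial : ℝ))]
    rw [h2, ← hdiff]
    refine lt_of_le_of_lt (Finset.abs_sum_le_sum_abs _ _) ?_
    refine Finset.sum_lt_sum_of_nonempty ⟨0, Finset.mem_range.mpr (Nat.succ_pos k)⟩ fun j hj => ?_
    have hch : 0 < (k.choose j : ℝ) := by
      exact_mod_cast Nat.choose_pos (Nat.lt_succ_iff.mp (Finset.mem_range.mp hj))
    have h3 : |((-1 : ℤ) ^ (k - j) * (k.choose j : ℤ)) • p.eval (a + j * h)| =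
        (k.choose j : ℝ) * |p.eval (a + j * h)| := by
      rw [zsmul_eq_mul, abs_mul]
      push_cast
      rw [abs_mul, abs_pow, abs_neg, abs_one, one_pow, one_mul, abs_of_pos hch]
    rw [h3]
    exact mul_lt_mul_of_pos_left (hsmall j hj) hch
  rw [← Finset.sum_mul] at h1
  have h4 : ∑ j ∈ Finset.range (k + 1), (k.choose j : ℝ) = 2 ^ k := by
    exact_mod_cast Nat.sum_range_choose k
  rw [h4] at h1
  have h5 : c * 2 ^ k ≤ h ^ k := by
    have e1 : (2 : ℝ) ^ k ≤ 2 ^ D := pow_le_pow_right₀ (by norm_num) hp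
    have e2 : ((k : ℝ) + 1) ^ k ≤ ((D : ℝ) + 1) ^ D := by
      refine le_trans (pow_le_pow_left₀ (by positivity)
        (by have : (k : ℝ) ≤ D := by exact_mod_cast hp
            linarith : (k : ℝ) + 1 ≤ (D : ℝ) + 1) k) ?_
      exact pow_le_pow_right₀ (by have : (0 : ℝ) ≤ D := by positivity
                                  linarith) hp
    have e3 : h ^ k = 1 / ((k : ℝ) + 1) ^ k := by rw [hh, one_div, one_div, inv_pow]
    rw [hc, e3, one_div_mul_eq_div, div_le_div_iff₀ (by positivity) (by positivity)]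
    calc (2 : ℝ) ^ k * ((k : ℝ) + 1) ^ k ≤ 2 ^ D * ((D : ℝ) + 1) ^ D :=
          mul_le_mul e1 e2 (by positivity) (by positivity)
      _ = 1 * (((D : ℝ) + 1) ^ D * 2 ^ D) := by ring
  have h6 : (1 : ℝ) ≤ (k.factorial : ℝ) := by exact_mod_cast Nat.factorial_pos k
  have h7 : 2 ^ k * (c * |p.leadingCoeff|) ≤ |p.leadingCoeff| * h ^ k * (k.factorial : ℝ) := by
    have h8 : 0 ≤ |p.leadingCoeff| := abs_nonneg _
    calc 2 ^ k * (c * |p.leadingCoeff|) = |p.leadingCoeff| * (c * 2 ^ k) := by ring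
      _ ≤ |p.leadingCoeff| * h ^ k := mul_le_mul_of_nonneg_left h5 h8
      _ = |p.leadingCoeff| * h ^ k * 1 := by ring
      _ ≤ |p.leadingCoeff| * h ^ k * (k.factorial : ℝ) :=
          mul_le_mul_of_nonneg_left h6 (by positivity)
  linarith

/-- `det (1 + S)` is the sum of the principal minors -/
theorem det_one_add {d : ℕ} (S : Matrix (Fin d) (Fin d) ℝ) :
    (1 + S).det = ∑ I : Finset (Fin d), (S.submatrix (Subtype.val : I → Fin d) (Subtype.val : I → Fin d)).det := by
  have h := (detRowAlternating : (Fin d → ℝ) [⋀^Fin d]→ₗ[ℝ] ℝ).toMultilinearMap.map_add_univ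
    (fun i => S i) (fun i => (1 : Matrix (Fin d) (Fin d) ℝ) i)
  rw [add_comm]
  refine h.trans (Finset.sum_congr rfl fun I _ => ?_)
  rw [← det_piecewise_one_eq_submatrix_det]
  rfl

end Pool.Agent.MPac5134.Lat
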